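import Mathlib
import Pool.Agent.H373R2.T4.DivB
import Pool.Agent.H398R2.BA1

/-!
The discrepancy of the diagonal twisted sums for general weights, and elementary estimates.
-/

set_option autoImplicit false

namespace Pool.Agent.V7H39.DE

open Finset

/-- the sum of `w(n) g(N - n)` over `1 ≤ n < N` with `n ≡ N (mod q)` -/
noncomputable def tw (w g : ℕ → ℝ) (q N : ℕ) : ℝ :=
  ∑ n ∈ (Ico 1 N).filter (fun n => n ≡ N [MOD q]), w n * g (N - n)

/-- the discrepancy over the moduli `q ≤ Q` coprime to `N` -/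
noncomputable def dis (w g : ℕ → ℝ) (N : ℕ) (Q : ℝ) : ℝ :=
  ∑ q ∈ (Icc 1 ⌊Q⌋₊).filter (fun q => q.Coprime N),
    |tw w g q N - 1 / (Nat.totient q : ℝ) * tw w g 1 N|

/-- `|c m| ≤ C m^η` for every `η > 0` -/
def Slow (c : ℕ → ℝ) : Prop := ∀ η : ℝ, 0 < η → ∃ C : ℝ, 0 < C ∧ ∀ m : ℕ, 1 ≤ m → |c m| ≤ C * (m : ℝ) ^ η

lemma Slow.mul {a b : ℕ → ℝ} (ha : Slow a) (hb : Slow b) : Slow fun m => a m * b m := by
  intro η hη
  obtain ⟨C, hC, h1⟩ := ha (η / 2) (by linarith)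
  obtain ⟨C', hC', h2⟩ := hb (η / 2) (by linarith)
  refine ⟨C * C', by positivity, fun m hm => ?_⟩
  have hm0 : (0 : ℝ) < m := by exact_mod_cast hm
  rw [abs_mul]
  calc |a m| * |b m| ≤ (C * (m : ℝ) ^ (η / 2)) * (C' * (m : ℝ) ^ (η / 2)) :=
        mul_le_mul (h1 m hm) (h2 m hm) (abs_nonneg _) (by positivity)
    _ = C * C' * ((m : ℝ) ^ (η / 2) * (m : ℝ) ^ (η / 2)) := by ring
    _ = C * C' * (m : ℝ) ^ η := by rw [← Real.rpow_add hm0]; congr 2; ring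

lemma slow_log : Slow fun m => Real.log m := by
  intro η hη
  refine ⟨1 / η, by positivity, fun m hm => ?_⟩
  have hm1 : (1 : ℝ) ≤ m := by exact_mod_cast hm
  rw [abs_of_nonneg (Real.log_nonneg hm1)]
  refine (Real.log_le_rpow_div (by linarith) hη).trans (le_of_eq ?_)
  ring

lemma slow_one : Slow fun _ => 1 := by
  intro η hη
  refine ⟨1, one_pos, fun m hm => ?_⟩
  have hm1 : (1 : ℝ) ≤ m := by exact_mod_cast hm
  rw [abs_one, one_mul]
  exact Real.one_le_rpow hm1 hη.le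

lemma slow_vM : Slow fun m => ArithmeticFunction.vonMangoldt m := by
  intro η hη
  obtain ⟨C, hC, h⟩ := slow_log η hη
  refine ⟨C, hC, fun m hm => le_trans ?_ (h m hm)⟩
  rw [abs_of_nonneg ArithmeticFunction.vonMangoldt_nonneg]
  exact ArithmeticFunction.vonMangoldt_le_log.trans (le_abs_self _)

/-- powers of `ω` -/
lemma slow_omega (r : ℕ) : Slow fun m => ((2 * r : ℕ) : ℝ) ^ m.primeFactors.card := by
  intro η hη
  obtain ⟨j, hj⟩ : ∃ j : ℕ, 2 * r ≤ 2 ^ j := ⟨2 * r, Nat.lt_two_pow_self.le⟩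
  obtain ⟨C, hC, h⟩ := Pool.Agent.H373R2.T4.DivB.div_bound (show 0 < η / (j + 1) by positivity)
  refine ⟨C ^ j, by positivity, fun m hm => ?_⟩
  have hm1 : (1 : ℝ) ≤ m := by exact_mod_cast hm
  rw [abs_of_nonneg (by positivity)]
  have h1 : ((2 ^ m.primeFactors.card : ℕ) : ℝ) ≤ m.divisors.card := by
    exact_mod_cast Pool.Agent.H398R2.BV.two_pow_omega_le m (by omega)
  push_cast at h1
  calc ((2 * r : ℕ) : ℝ) ^ m.primeFactors.card ≤ ((2 : ℝ) ^ j) ^ m.primeFactors.card := by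
        apply pow_le_pow_left₀ (by positivity)
        exact_mod_cast hj
    _ = ((2 : ℝ) ^ m.primeFactors.card) ^ j := by rw [← pow_mul, ← pow_mul, mul_comm]
    _ ≤ (C * (m : ℝ) ^ (η / (j + 1))) ^ j := by
        apply pow_le_pow_left₀ (by positivity)
        exact h1.trans (h m (by omega))
    _ = C ^ j * (m : ℝ) ^ (η / (j + 1) * j) := by
        rw [mul_pow, ← Real.rpow_natCast ((m : ℝ) ^ (η / (j + 1))), ← Real.rpow_mul (by linarith)]
    _ ≤ C ^ j * (m : ℝ) ^ η := by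
        apply mul_le_mul_of_nonneg_left _ (by positivity)
        apply Real.rpow_le_rpow_of_exponent_le hm1
        rw [div_mul_eq_mul_div, div_le_iff₀ (by positivity)]
        nlinarith

/-- reflection of the sum -/
lemma tw_eq (w g : ℕ → ℝ) (q N : ℕ) :
    tw w g q N = ∑ m ∈ (Ico 1 N).filter (fun m => q ∣ m), w (N - m) * g m := by
  unfold tw
  refine Finset.sum_nbij' (fun n => N - n) (fun n => N - n) ?_ ?_ ?_ ?_ ?_
  · intro n hn
    rw [mem_filter, mem_Ico] at hn ⊢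
    refine ⟨by omega, (Nat.modEq_iff_dvd' hn.1.2.le).1 hn.2⟩
  · intro n hn
    rw [mem_filter, mem_Ico] at hn ⊢
    refine ⟨by omega, (Nat.modEq_iff_dvd' (by omega)).2 ?_⟩
    rw [Nat.sub_sub_self hn.1.2.le]
    exact hn.2
  · intro n hn
    rw [mem_filter, mem_Ico] at hn
    omega
  · intro n hn
    rw [mem_filter, mem_Ico] at hn
    omega
  · intro n hn
    rw [mem_filter, mem_Ico] at hn
    rw [Nat.sub_sub_self hn.1.2.le]

lemma card_mult (q N : ℕ) :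
    (((Ico 1 N).filter (fun m => q ∣ m)).card : ℝ) ≤ (N : ℝ) / q := by
  have h1 : (Ico 1 N).filter (fun m => q ∣ m) ⊆ (Ioc 0 N).filter (fun m => q ∣ m) := by
    intro m hm
    rw [mem_filter, mem_Ico] at hm
    rw [mem_filter, mem_Ioc]
    exact ⟨by omega, hm.2⟩
  have h2 := card_le_card h1
  rw [Nat.Ioc_filter_dvd_card_eq_div] at h2
  calc (((Ico 1 N).filter (fun m => q ∣ m)).card : ℝ) ≤ ((N / q : ℕ) : ℝ) := by exact_mod_cast h2
    _ ≤ N / q := Nat.cast_div_le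

lemma sum_rsqrt (n : ℕ) : ∑ q ∈ Icc 1 n, 1 / √(q : ℝ) ≤ 2 * √(n : ℝ) := by
  induction n with
  | zero => simp
  | succ n ih =>
    rw [sum_Icc_succ_top (by omega)]
    have h0 : 0 < √((n + 1 : ℕ) : ℝ) := Real.sqrt_pos.2 (by positivity)
    have h1 : 1 / √((n + 1 : ℕ) : ℝ) ≤ 2 * √((n + 1 : ℕ) : ℝ) - 2 * √(n : ℝ) := by
      rw [div_le_iff₀ h0]
      have e1 : √((n + 1 : ℕ) : ℝ) * √((n + 1 : ℕ) : ℝ) = n + 1 := by
        rw [Real.mul_self_sqrt (by positivity)]; push_cast; ring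
      have e2 : √(n : ℝ) * √(n : ℝ) = n := Real.mul_self_sqrt (by positivity)
      nlinarith [sq_nonneg (√((n + 1 : ℕ) : ℝ) - √(n : ℝ))]
    linarith

theorem card_div_le (n : ℕ) : (n.divisors.card : ℝ) ≤ 2 * Real.sqrt n := by
  have h1 : n.divisors ⊆ (Finset.Icc 1 (Nat.sqrt n)) ∪ (Finset.Icc 1 (Nat.sqrt n)).image (fun d => n / d) := by
    intro d hd
    rw [Nat.mem_divisors] at hd
    obtain ⟨⟨e, he⟩, hn⟩ := hd
    have hd0 : 0 < d := Nat.pos_of_ne_zero (by rintro rfl; simp at he; exact hn he)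
    have he0 : 0 < e := Nat.pos_of_ne_zero (by rintro rfl; simp at he; exact hn he)
    rw [Finset.mem_union]
    by_cases h : d ≤ Nat.sqrt n
    · left; rw [Finset.mem_Icc]; exact ⟨hd0, h⟩
    · right
      rw [Finset.mem_image]
      refine ⟨e, ?_, ?_⟩
      · rw [Finset.mem_Icc]
        refine ⟨he0, ?_⟩
        by_contra h2
        have h3 : Nat.sqrt n + 1 ≤ d := by omega
        have h4 : Nat.sqrt n + 1 ≤ e := by omega
        have h5 : (Nat.sqrt n + 1) * (Nat.sqrt n + 1) ≤ d * e := Nat.mul_le_mul h3 h4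
        have h6 := Nat.lt_succ_sqrt n
        rw [← he] at h5
        simp only [Nat.succ_eq_add_one] at h6
        omega
      · rw [he]; exact Nat.mul_div_cancel d he0
  have h2 : n.divisors.card ≤ Nat.sqrt n + Nat.sqrt n := by
    calc n.divisors.card ≤ _ := Finset.card_le_card h1
      _ ≤ (Finset.Icc 1 (Nat.sqrt n)).card + ((Finset.Icc 1 (Nat.sqrt n)).image (fun d => n / d)).card :=
          Finset.card_union_le _ _
      _ ≤ Nat.sqrt n + Nat.sqrt n := by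
          have := Finset.card_image_le (s := Finset.Icc 1 (Nat.sqrt n)) (f := fun d => n / d)
          simp at this ⊢
          omega
  have h4 : ((n.sqrt : ℕ) : ℝ) ≤ √(n : ℝ) := Real.nat_sqrt_le_real_sqrt
  have h5 : (n.divisors.card : ℝ) ≤ (n.sqrt : ℕ) + (n.sqrt : ℕ) := by exact_mod_cast h2
  linarith

lemma inv_tot (q : ℕ) (hq : 1 ≤ q) : 1 / (Nat.totient q : ℝ) ≤ 2 * (1 / √(q : ℝ)) := by
  have hq0 : (0 : ℝ) < q := by exact_mod_cast hq
  have hs : 0 < √(q : ℝ) := Real.sqrt_pos.2 hq0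
  refine (Pool.Agent.H398R2.BV.one_div_totient_le q hq).trans ?_
  have h1 : ((2 ^ q.primeFactors.card : ℕ) : ℝ) ≤ q.divisors.card := by
    exact_mod_cast Pool.Agent.H398R2.BV.two_pow_omega_le q (by omega)
  have h2 : (q.divisors.card : ℝ) ≤ 2 * √(q : ℝ) := card_div_le q
  rw [div_le_iff₀ hq0]
  have h6 : 2 * (1 / √(q : ℝ)) * q = 2 * √(q : ℝ) := by
    have e2 : √(q : ℝ) * √(q : ℝ) = q := Real.mul_self_sqrt hq0.le
    field_simp
    linarith
  rw [h6]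
  push_cast at h1
  linarith

/-- the discrepancy when all twisted sums are small -/
lemma dis_le (w g : ℕ → ℝ) (N : ℕ) (Q B : ℝ) (hN : 1 ≤ N) (hQ1 : 1 ≤ Q) (hQ : Q ≤ N) (hB : 0 ≤ B)
    (h : ∀ q ∈ Icc 1 N, |tw w g q N| ≤ √((N : ℝ) / q) * B) :
    dis w g N Q ≤ 6 * √((N : ℝ) * Q) * B := by
  have hN0 : (0 : ℝ) < N := by exact_mod_cast hN
  have h1 : |tw w g 1 N| ≤ √(N : ℝ) * B := by
    have := h 1 (mem_Icc.2 ⟨le_rfl, hN⟩)
    simpa using this
  have hsub : Icc 1 ⌊Q⌋₊ ⊆ Icc 1 N := by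
    apply Icc_subset_Icc le_rfl
    exact Nat.floor_le_of_le hQ
  have h2 : ∀ q ∈ Icc 1 ⌊Q⌋₊, |tw w g q N - 1 / (Nat.totient q : ℝ) * tw w g 1 N| ≤
      3 * √(N : ℝ) * B * (1 / √(q : ℝ)) := by
    intro q hq
    have hq1 := (mem_Icc.1 hq).1
    have e1 := h q (hsub hq)
    rw [Real.sqrt_div hN0.le] at e1
    have e2 := inv_tot q hq1
    have e3 : |1 / (Nat.totient q : ℝ) * tw w g 1 N| ≤ 2 * (1 / √(q : ℝ)) * (√(N : ℝ) * B) := by
      rw [abs_mul, abs_of_nonneg (show 0 ≤ 1 / (Nat.totient q : ℝ) by positivity)]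
      exact mul_le_mul e2 h1 (abs_nonneg _) (by positivity)
    calc _ ≤ |tw w g q N| + |1 / (Nat.totient q : ℝ) * tw w g 1 N| := abs_sub _ _
      _ ≤ √(N : ℝ) / √(q : ℝ) * B + 2 * (1 / √(q : ℝ)) * (√(N : ℝ) * B) := add_le_add e1 e3
      _ = _ := by ring
  unfold dis
  calc _ ≤ ∑ q ∈ Icc 1 ⌊Q⌋₊, |tw w g q N - 1 / (Nat.totient q : ℝ) * tw w g 1 N| :=
        sum_le_sum_of_subset_of_nonneg (filter_subset _ _) fun _ _ _ => abs_nonneg _
    _ ≤ ∑ q ∈ Icc 1 ⌊Q⌋₊, 3 * √(N : ℝ) * B * (1 / √(q : ℝ)) := sum_le_sum h2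
    _ = 3 * √(N : ℝ) * B * ∑ q ∈ Icc 1 ⌊Q⌋₊, 1 / √(q : ℝ) := by rw [mul_sum]
    _ ≤ 3 * √(N : ℝ) * B * (2 * √(⌊Q⌋₊ : ℝ)) :=
        mul_le_mul_of_nonneg_left (sum_rsqrt _) (by positivity)
    _ ≤ 3 * √(N : ℝ) * B * (2 * √Q) := by
        have : √(⌊Q⌋₊ : ℝ) ≤ √Q := Real.sqrt_le_sqrt (Nat.floor_le (by linarith))
        gcongr
    _ = 6 * √((N : ℝ) * Q) * B := by rw [Real.sqrt_mul hN0.le]; ring

end Pool.Agent.V7H39.DE
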