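import Pool.Agent.V7H39.DE.Base
import Pool.Agent.R311.DEH.A7

/-!
Twisted sums with random weights of periodic mean values, and the Moebius function.
-/

set_option autoImplicit false

namespace Pool.Agent.V7H39.DE

open Finset MeasureTheory ProbabilityTheory Filter
open Pool.Agent.R311.DEH (g1 g2 dl Qs ct)
open scoped NNReal

/-- independent random weights with given mean values, of logarithmic size -/
structure Weights {Ω : Type} [MeasurableSpace Ω] (P : Measure Ω) (X : ℕ → Ω → ℝ) (h : ℕ → ℝ) (B : ℝ) : Prop where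
  meas : ∀ n, Measurable (X n)
  bound : ∀ n ω, 1 ≤ n → |X n ω| ≤ B * (1 + Real.log n)
  mean : ∀ n, ∫ ω, X n ω ∂P = h n
  indep : iIndepFun X P

section prob

variable {Ω : Type} [MeasurableSpace Ω] {P : Measure Ω} [IsProbabilityMeasure P] {X : ℕ → Ω → ℝ} {h : ℕ → ℝ}
  {B : ℝ}

lemma Weights.tail (H : Weights P X h B) (S : Finset ℕ) (a : ℕ → ℝ) (A b t : ℝ) (hA : 0 ≤ A)
    (ha : ∀ n ∈ S, |a n| ≤ A) (hX : ∀ n ∈ S, ∀ ω, |X n ω| ≤ b) (hb : 0 ≤ b) (ht : 0 ≤ t) :
    P {ω | t ≤ ∑ n ∈ S, a n * (X n ω - h n)} ≤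
      ENNReal.ofReal (Real.exp (-t ^ 2 / (2 * (S.card * (A ^ 2 * b ^ 2))))) := by
  have hind : iIndepFun (fun n ω => a n * (X n ω - h n)) P := by
    have h1 := H.indep.comp (fun n x => a n * (x - h n)) (fun n => by fun_prop)
    exact h1
  have hsub : ∀ n ∈ S, HasSubgaussianMGF (fun ω => a n * (X n ω - h n)) (Real.toNNReal (A ^ 2 * b ^ 2)) P := by
    intro n hn
    have h1 : HasSubgaussianMGF (fun ω => X n ω - ∫ ω, X n ω ∂P) ((‖b - (-b)‖₊ / 2) ^ 2) P :=
      hasSubgaussianMGF_of_mem_Icc (H.meas n).aemeasurable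
        (Eventually.of_forall fun ω => abs_le.1 (hX n hn ω))
    rw [H.mean n] at h1
    have h2 := h1.const_mul (a n)
    refine ⟨h2.integrable_exp_mul, fun t => (h2.mgf_le t).trans (Real.exp_le_exp.2 ?_)⟩
    rw [Real.coe_toNNReal _ (by positivity)]
    change a n ^ 2 * (‖b - -b‖ / 2) ^ 2 * t ^ 2 / 2 ≤ A ^ 2 * b ^ 2 * t ^ 2 / 2
    have e1 : ‖b - -b‖ / 2 = b := by
      rw [sub_neg_eq_add, Real.norm_of_nonneg (by linarith)]; ring
    rw [e1]
    have e2 : a n ^ 2 ≤ A ^ 2 := by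
      rw [← sq_abs]
      exact pow_le_pow_left₀ (abs_nonneg _) (ha n hn) 2
    have e3 : a n ^ 2 * b ^ 2 * t ^ 2 ≤ A ^ 2 * b ^ 2 * t ^ 2 := by gcongr
    exact div_le_div_of_nonneg_right e3 (by norm_num : (0 : ℝ) ≤ 2)
  have h1 := HasSubgaussianMGF.measure_sum_ge_le_of_iIndepFun hind hsub ht
  rw [← ofReal_measureReal]
  refine ENNReal.ofReal_le_ofReal (h1.trans (le_of_eq ?_))
  congr 2
  rw [sum_const, nsmul_eq_mul]
  push_cast
  rw [Real.coe_toNNReal _ (by positivity)]

lemma Weights.tail2 (H : Weights P X h B) (S : Finset ℕ) (a : ℕ → ℝ) (A b t : ℝ) (hA : 0 ≤ A)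
    (ha : ∀ n ∈ S, |a n| ≤ A) (hX : ∀ n ∈ S, ∀ ω, |X n ω| ≤ b) (hb : 0 ≤ b) (ht : 0 ≤ t) :
    P {ω | t < |∑ n ∈ S, a n * (X n ω - h n)|} ≤
      ENNReal.ofReal (2 * Real.exp (-t ^ 2 / (2 * (S.card * (A ^ 2 * b ^ 2))))) := by
  have h1 := H.tail S a A b t hA ha hX hb ht
  have h2 := H.tail S (fun n => - a n) A b t hA (fun n hn => by rw [abs_neg]; exact ha n hn) hX hb ht
  calc _ ≤ P ({ω | t ≤ ∑ n ∈ S, a n * (X n ω - h n)} ∪ {ω | t ≤ ∑ n ∈ S, - a n * (X n ω - h n)}) := by
        apply measure_mono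
        intro ω hω
        rw [Set.mem_ofPred_eq] at hω
        rcases lt_abs.1 hω with h3 | h3
        · left; exact h3.le
        · right
          rw [Set.mem_ofPred_eq]
          refine h3.le.trans (le_of_eq ?_)
          rw [← sum_neg_distrib]
          exact sum_congr rfl fun n _ => by ring
    _ ≤ _ := measure_union_le _ _
    _ ≤ _ := add_le_add h1 h2
    _ = _ := by rw [← ENNReal.ofReal_add (Real.exp_pos _).le (Real.exp_pos _).le]; congr 1; ring

lemma exp_small (L : ℝ) : Real.exp (-(L ^ 4 / 2)) ≤ Real.exp (-(3 * (L - 1))) := by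
  apply Real.exp_le_exp.2
  nlinarith [sq_nonneg (L ^ 2 - 1), sq_nonneg (L - 3 / 2)]

/-- the fluctuations are small, almost surely -/
theorem Weights.all_small (H : Weights P X h B) (hB : 0 < B) (g : ℕ → ℝ)
    (hg : ∀ m : ℕ, 1 ≤ m → |g m| ≤ 1 + Real.log m) :
    ∀ᵐ ω ∂P, ∀ᶠ N : ℕ in atTop, ∀ q ∈ Icc 1 N,
      |tw (fun n => X n ω - h n) g q N| ≤ √((N : ℝ) / q) * (B * (1 + Real.log N) ^ 4) := by
  classical
  set Bad : ℕ → Set Ω := fun N => {ω | ∃ q ∈ Icc 1 N,
    √((N : ℝ) / q) * (B * (1 + Real.log N) ^ 4) < |tw (fun n => X n ω - h n) g q N|} with hBad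
  have hP : ∀ N : ℕ, 1 ≤ N → P (Bad N) ≤ ENNReal.ofReal (2 * (1 / (N : ℝ) ^ 2)) := by
    intro N hN
    have hN1 : (1 : ℝ) ≤ N := by exact_mod_cast hN
    have hN0 : (0 : ℝ) < N := by linarith
    have hl : 0 ≤ Real.log N := Real.log_nonneg hN1
    set L := 1 + Real.log N with hLd
    have hL1 : 1 ≤ L := by linarith
    have h1 : ∀ q ∈ Icc 1 N, P {ω | √((N : ℝ) / q) * (B * L ^ 4) <
        |tw (fun n => X n ω - h n) g q N|} ≤ ENNReal.ofReal (2 * (1 / (N : ℝ) ^ 3)) := by
      intro q hq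
      have hq1 := (mem_Icc.1 hq).1
      have hq0 : (0 : ℝ) < q := by exact_mod_cast hq1
      set S := (Ico 1 N).filter (fun n => n ≡ N [MOD q]) with hS
      have hlog : ∀ n : ℕ, 1 ≤ n → n ≤ N → Real.log n ≤ Real.log N := fun n h1 h2 =>
        Real.log_le_log (by exact_mod_cast h1) (by exact_mod_cast h2)
      have hcard : (S.card : ℝ) ≤ (N : ℝ) / q := by
        refine le_trans (le_of_eq ?_) (card_mult q N)
        congr 1
        rw [hS]
        refine Finset.card_nbij' (fun n => N - n) (fun n => N - n) ?_ ?_ ?_ ?_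
        · intro n hn
          simp only [coe_filter, mem_Ico, Set.mem_ofPred_eq] at hn ⊢
          exact ⟨by omega, (Nat.modEq_iff_dvd' hn.1.2.le).1 hn.2⟩
        · intro n hn
          simp only [coe_filter, mem_Ico, Set.mem_ofPred_eq] at hn ⊢
          refine ⟨by omega, (Nat.modEq_iff_dvd' (by omega)).2 ?_⟩
          rw [Nat.sub_sub_self hn.1.2.le]
          exact hn.2
        · intro n hn
          simp only [coe_filter, mem_Ico, Set.mem_ofPred_eq] at hn ⊢
          omega
        · intro n hn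
          simp only [coe_filter, mem_Ico, Set.mem_ofPred_eq] at hn ⊢
          omega
      have ht : 0 ≤ √((N : ℝ) / q) * (B * L ^ 4) := by positivity
      have e0 : ∀ ω, tw (fun n => X n ω - h n) g q N = ∑ n ∈ S, g (N - n) * (X n ω - h n) := by
        intro ω
        unfold tw
        exact sum_congr rfl fun n _ => mul_comm _ _
      simp only [e0]
      rcases S.eq_empty_or_nonempty with hS0 | hS0
      · have : {ω | √((N : ℝ) / q) * (B * L ^ 4) < |∑ n ∈ S, g (N - n) * (X n ω - h n)|} = ∅ := by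
          ext ω
          simp only [Set.mem_ofPred_eq, Set.mem_empty_iff_false, iff_false, not_lt]
          rw [hS0, sum_empty, abs_zero]
          exact ht
        rw [this, measure_empty]
        exact zero_le
      have h2 := H.tail2 S (fun n => g (N - n)) L (B * L) _ (by positivity) (fun n hn => by
          rw [hS, mem_filter, mem_Ico] at hn
          refine (hg (N - n) (by omega)).trans ?_
          have := hlog (N - n) (by omega) (Nat.sub_le _ _)
          linarith) (fun n hn ω => by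
          rw [hS, mem_filter, mem_Ico] at hn
          refine (H.bound n ω hn.1.1).trans (mul_le_mul_of_nonneg_left ?_ hB.le)
          have := hlog n hn.1.1 hn.1.2.le
          linarith) (by positivity) ht
      refine h2.trans (ENNReal.ofReal_le_ofReal ?_)
      apply mul_le_mul_of_nonneg_left _ (by norm_num)
      have e1 : (√((N : ℝ) / q) * (B * L ^ 4)) ^ 2 = (N : ℝ) / q * (B ^ 2 * L ^ 8) := by
        rw [mul_pow, Real.sq_sqrt (by positivity)]; ring
      have e2 : -(√((N : ℝ) / q) * (B * L ^ 4)) ^ 2 / (2 * (S.card * (L ^ 2 * (B * L) ^ 2))) ≤ -(L ^ 4 / 2) := by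
        have hS1 : (0 : ℝ) < S.card := by exact_mod_cast hS0.card_pos
        rw [e1, neg_div, neg_le_neg_iff, div_le_div_iff₀ (by norm_num) (by positivity)]
        have e3 : L ^ 4 * (2 * (S.card * (L ^ 2 * (B * L) ^ 2))) = (S.card : ℝ) * (B ^ 2 * L ^ 8) * 2 := by ring
        rw [e3]
        have := mul_le_mul_of_nonneg_right hcard (show 0 ≤ B ^ 2 * L ^ 8 by positivity)
        linarith
      calc _ ≤ Real.exp (-(L ^ 4 / 2)) := Real.exp_le_exp.2 e2
        _ ≤ Real.exp (-(3 * (L - 1))) := exp_small L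
        _ = 1 / (N : ℝ) ^ 3 := by
          rw [hLd, add_sub_cancel_left, Real.exp_neg, one_div]
          congr 1
          rw [show (3 : ℝ) * Real.log N = ((3 : ℕ) : ℝ) * Real.log N by norm_num, Real.exp_nat_mul,
            Real.exp_log hN0]
    calc P (Bad N) ≤ P (⋃ q ∈ Icc 1 N, {ω | √((N : ℝ) / q) * (B * L ^ 4) <
          |tw (fun n => X n ω - h n) g q N|}) := by
          apply measure_mono
          rintro ω ⟨q, hq, hlt⟩
          simp only [Set.mem_iUnion]
          exact ⟨q, hq, hlt⟩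
      _ ≤ ∑ q ∈ Icc 1 N, P {ω | √((N : ℝ) / q) * (B * L ^ 4) <
          |tw (fun n => X n ω - h n) g q N|} := measure_biUnion_finset_le _ _
      _ ≤ ∑ q ∈ Icc 1 N, ENNReal.ofReal (2 * (1 / (N : ℝ) ^ 3)) := sum_le_sum h1
      _ = N * ENNReal.ofReal (2 * (1 / (N : ℝ) ^ 3)) := by
          rw [sum_const, nsmul_eq_mul, Nat.card_Icc, Nat.add_sub_cancel]
      _ = ENNReal.ofReal (2 * (1 / (N : ℝ) ^ 2)) := by
          rw [← ENNReal.ofReal_natCast, ← ENNReal.ofReal_mul (by positivity)]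
          congr 1
          field_simp
  have hsumm : ∑' N : ℕ, P (Bad (N + 1)) ≠ ⊤ := by
    have h1 : Summable fun N : ℕ => 2 * (1 / ((N + 1 : ℕ) : ℝ) ^ 2) := by
      apply Summable.mul_left
      exact (summable_nat_add_iff 1).2 (Real.summable_one_div_nat_pow.2 (by norm_num))
    refine ne_top_of_le_ne_top h1.tsum_ofReal_ne_top (ENNReal.tsum_le_tsum fun N => ?_)
    exact hP (N + 1) (by omega)
  have h2 := ae_eventually_notMem hsumm
  filter_upwards [h2] with ω hω
  obtain ⟨N0, hN0⟩ := eventually_atTop.1 hω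
  filter_upwards [eventually_ge_atTop (N0 + 1)] with N hN q hq
  have h3 := hN0 (N - 1) (by omega)
  rw [show N - 1 + 1 = N by omega] at h3
  by_contra hcon
  exact h3 ⟨q, hq, not_le.1 hcon⟩

end prob

end Pool.Agent.V7H39.DE
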