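import Pool.Agent.V7H39.DE.Base
import Pool.Agent.R311.DEH.A7

/-!
Twisted sums with periodic weights and the Moebius function, for every `N`.
-/

set_option autoImplicit false

namespace Pool.Agent.V7H39.DE

open Finset Filter
open Pool.Agent.R311.DEH
open Pool.Agent.H807R2.Dav (ee ee_add ee_pow ee_int)
open Pool.Agent.H373R2.T7 (orth)

lemma per_add {h : ℕ → ℝ} {W : ℕ} (hp : ∀ n, h (n + W) = h n) (n j : ℕ) : h (n + W * j) = h n := by
  induction j with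
  | zero => rfl
  | succ j ih => rw [Nat.mul_succ, ← add_assoc, hp, ih]

lemma norm_ee (x : ℝ) : ‖ee x‖ = 1 := by
  rw [Pool.Agent.H807R2.Dav.ee_eq, Complex.norm_exp_ofReal_mul_I]

/-- expansion of a periodic function -/
lemma per_exp {h : ℕ → ℝ} {W : ℕ} (hW : 1 ≤ W) (hp : ∀ n, h (n + W) = h n) (N m : ℕ) (hm : m ≤ N) :
    ((h (N - m) : ℝ) : ℂ) = ∑ r ∈ range W, ∑ t ∈ range W,
      ((h (N + W - r) : ℝ) : ℂ) / W * ee (-((t : ℝ) * (r / W))) * ee ((m : ℝ) * ((t : ℝ) / W)) := by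
  have hW0 : (W : ℂ) ≠ 0 := by exact_mod_cast (by omega : W ≠ 0)
  have h1 : ∀ r ∈ range W, ∑ t ∈ range W,
      ((h (N + W - r) : ℝ) : ℂ) / W * ee (-((t : ℝ) * (r / W))) * ee ((m : ℝ) * ((t : ℝ) / W)) =
      ((h (N + W - r) : ℝ) : ℂ) * (if (W : ℤ) ∣ ((m : ℤ) - r) then 1 else 0) := by
    intro r _
    have h2 := orth W hW ((m : ℤ) - r)
    calc _ = ((h (N + W - r) : ℝ) : ℂ) / W * ∑ t ∈ range W, ee ((t : ℝ) * ((((m : ℤ) - r : ℤ) : ℝ) / W)) := by
          rw [mul_sum]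
          apply sum_congr rfl
          intro t _
          rw [mul_assoc, ← ee_add]
          congr 2
          push_cast
          ring
      _ = _ := by
          rw [h2]
          split_ifs
          · field_simp
          · simp
  rw [sum_congr rfl h1]
  rw [sum_eq_single (m % W)]
  · rw [if_pos]
    · rw [mul_one]
      congr 1
      have h3 : m % W < W := Nat.mod_lt _ hW
      have h4 := Nat.div_add_mod m W
      have h5 : N + W - m % W = (N - m) + W * (m / W + 1) := by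
        rw [Nat.mul_add, mul_one]
        omega
      rw [h5, per_add hp]
    · exact ⟨(m / W : ℕ), by
        have h4 := Nat.div_add_mod m W
        push_cast
        have h5 : (W : ℤ) * ((m : ℤ) / W) + (m : ℤ) % W = m := Int.mul_ediv_add_emod _ _
        linarith⟩
  · intro r hr hne
    rw [if_neg, mul_zero]
    intro hd
    apply hne
    have h3 : (r : ℤ) ≡ m [ZMOD W] := (Int.modEq_iff_dvd).2 hd
    have h4 : r ≡ m [MOD W] := Int.natCast_modEq_iff.1 h3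
    rw [← Nat.mod_eq_of_lt (mem_range.1 hr)]
    exact h4
  · intro h
    exact absurd (mem_range.2 (Nat.mod_lt _ hW)) h

/-- the sum with periodic weights over the multiples of `q` up to `N` -/
lemma per_bound (U : ℕ) : ∃ Y0 : ℕ, 4 ≤ Y0 ∧ ∀ N q K : ℕ, 1 ≤ q → Y0 ≤ K → K ≤ N / q → ∀ g : ℕ → ℝ,
    (g = g1 ∨ g = g2) → ∀ (h : ℕ → ℝ) (W : ℕ) (M : ℝ), 1 ≤ W → (∀ n, h (n + W) = h n) → (∀ n, |h n| ≤ M) →
    |∑ m ∈ Icc 1 N, (if q ∣ m then g m else 0) * h (N - m)| ≤ W * M * dl U N q K := by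
  obtain ⟨Y0, hY0, hb⟩ := g_bound U
  refine ⟨Y0, hY0, fun N q K hq hK hKN g hg h W M hW hp hM => ?_⟩
  have hM0 : 0 ≤ M := (abs_nonneg _).trans (hM 0)
  have hW0 : (0 : ℝ) < W := by exact_mod_cast hW
  have h1 : (((∑ m ∈ Icc 1 N, (if q ∣ m then g m else 0) * h (N - m) : ℝ)) : ℂ) =
      ∑ r ∈ range W, ∑ t ∈ range W, ((h (N + W - r) : ℝ) : ℂ) / W * ee (-((t : ℝ) * (r / W))) *
        ∑ m ∈ Icc 1 N, (if q ∣ m then (g m : ℂ) else 0) * ee ((m : ℝ) * ((t : ℝ) / W)) := by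
    push_cast
    calc _ = ∑ m ∈ Icc 1 N, ∑ r ∈ range W, ∑ t ∈ range W, ((h (N + W - r) : ℝ) : ℂ) / W *
          ee (-((t : ℝ) * (r / W))) * ((if q ∣ m then (g m : ℂ) else 0) * ee ((m : ℝ) * ((t : ℝ) / W))) := by
          apply sum_congr rfl
          intro m hm
          rw [per_exp hW hp N m (mem_Icc.1 hm).2, mul_sum]
          apply sum_congr rfl
          intro r _
          rw [mul_sum]
          apply sum_congr rfl
          intro t _
          split_ifs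
          · ring
          · simp
      _ = _ := by
          rw [sum_comm]
          apply sum_congr rfl
          intro r _
          rw [sum_comm]
          apply sum_congr rfl
          intro t _
          rw [mul_sum]
  rw [← Real.norm_eq_abs, ← Complex.norm_real, h1]
  have h2 : ∀ r ∈ range W, ∀ t ∈ range W, ‖((h (N + W - r) : ℝ) : ℂ) / W * ee (-((t : ℝ) * (r / W))) *
        ∑ m ∈ Icc 1 N, (if q ∣ m then (g m : ℂ) else 0) * ee ((m : ℝ) * ((t : ℝ) / W))‖ ≤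
      M / W * dl U N q K := by
    intro r _ t _
    rw [norm_mul, norm_mul, norm_ee, mul_one, norm_div, Complex.norm_real, Complex.norm_natCast,
      Real.norm_eq_abs]
    apply mul_le_mul _ (hb N q K hq hK hKN g hg _) (norm_nonneg _) (by positivity)
    exact div_le_div_of_nonneg_right (hM _) hW0.le
  calc _ ≤ ∑ r ∈ range W, ∑ t ∈ range W, M / W * dl U N q K :=
        (norm_sum_le _ _).trans (sum_le_sum fun r hr => (norm_sum_le _ _).trans (sum_le_sum (h2 r hr)))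
    _ = W * M * dl U N q K := by
        rw [sum_const, sum_const, card_range, nsmul_eq_mul, nsmul_eq_mul]
        field_simp

lemma sum_tot (X : ℕ) (hX : 1 ≤ X) : ∑ q ∈ Icc 1 X, 1 / (Nat.totient q : ℝ) ≤ (1 + Real.log X) ^ 4 := by
  have hk := Pool.Agent.H398R2.BV.sum_card_pow_div 1 X
  have e2 : ∀ q ∈ Icc 1 X, 1 / (Nat.totient q : ℝ) ≤ (q.divisors.card : ℝ) ^ 1 / q := by
    intro q hq
    rw [mem_Icc] at hq
    refine (Pool.Agent.H398R2.BV.one_div_totient_le q hq.1).trans ?_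
    have hq0 : (0 : ℝ) < q := by exact_mod_cast hq.1
    apply div_le_div_of_nonneg_right _ hq0.le
    rw [pow_one]
    exact_mod_cast Pool.Agent.H398R2.BV.two_pow_omega_le q (by omega)
  refine (sum_le_sum e2).trans (hk.trans ?_)
  rw [pow_one]
  have : 0 ≤ Real.log X := Real.log_nonneg (by exact_mod_cast hX)
  exact pow_le_pow_right₀ (by linarith) (by norm_num)

lemma g_abs (g : ℕ → ℝ) (hg : g = g1 ∨ g = g2) (m : ℕ) (hm : 1 ≤ m) : |g m| ≤ 1 + Real.log m := by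
  have hl : 0 ≤ Real.log m := Real.log_nonneg (by exact_mod_cast hm)
  have h1 : |((ArithmeticFunction.moebius m : ℤ) : ℝ)| ≤ 1 := by
    have := ArithmeticFunction.abs_moebius_le_one (n := m)
    exact_mod_cast this
  rcases hg with rfl | rfl
  · unfold g1
    linarith
  · unfold g2
    rw [abs_mul, abs_of_nonneg hl]
    nlinarith

/-- the twisted sum with periodic weights -/
lemma tw_per {U N q K : ℕ} {D : ℝ} {g h : ℕ → ℝ} {M : ℝ} (hg : g = g1 ∨ g = g2) (hM : ∀ n, |h n| ≤ M) (hN : 1 ≤ N)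
    (hb : |∑ m ∈ Icc 1 N, (if q ∣ m then g m else 0) * h (N - m)| ≤ D) :
    |tw h g q N| ≤ D + (if q ∣ N then M * (1 + Real.log N) else 0) := by
  have hM0 : 0 ≤ M := (abs_nonneg _).trans (hM 0)
  have h1 : tw h g q N = ∑ m ∈ Icc 1 N, (if q ∣ m then g m else 0) * h (N - m) -
      (if q ∣ N then g N else 0) * h 0 := by
    rw [tw_eq, sum_filter]
    have h2 : Icc 1 N = insert N (Ico 1 N) := by
      ext x
      rw [mem_insert, mem_Icc, mem_Ico]
      omega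
    rw [h2, sum_insert (by simp), Nat.sub_self, add_sub_cancel_left]
    apply sum_congr rfl
    intro m _
    split_ifs
    · ring
    · ring
  rw [h1]
  refine (abs_sub _ _).trans (add_le_add hb ?_)
  split_ifs with h3
  · rw [abs_mul, mul_comm]
    exact mul_le_mul (hM 0) (g_abs g hg N hN) (abs_nonneg _) hM0
  · simp

lemma sum_dvd_le (N : ℕ) (hN : 1 ≤ N) (c : ℝ) (hc : 0 ≤ c) (S : Finset ℕ) (hS : S ⊆ Icc 1 N) :
    ∑ q ∈ S, (if q ∣ N then c else 0) ≤ 2 * √(N : ℝ) * c := by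
  rw [← sum_filter, sum_const, nsmul_eq_mul]
  apply mul_le_mul_of_nonneg_right _ hc
  refine le_trans ?_ (card_div_le N)
  have : S.filter (fun q => q ∣ N) ⊆ N.divisors := by
    intro q hq
    rw [mem_filter] at hq
    rw [Nat.mem_divisors]
    exact ⟨hq.2, by omega⟩
  exact_mod_cast card_le_card this

/-- the discrepancy with periodic weights -/
lemma dis_per (U : ℕ) : ∃ Y0 : ℕ, 4 ≤ Y0 ∧ ∀ N K T : ℕ, ∀ Q : ℝ, Y0 ≤ K → K ≤ N → 1 ≤ T → T ^ 3 ≤ ct K →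
    1 ≤ Q → Q ≤ N → (∀ q : ℕ, 1 ≤ q → (q : ℝ) ≤ Q → K ≤ N / q) → ∀ g : ℕ → ℝ,
    (g = g1 ∨ g = g2) → ∀ (h : ℕ → ℝ) (W : ℕ) (M : ℝ), 1 ≤ W → (∀ n, h (n + W) = h n) → (∀ n, |h n| ≤ M) →
    dis h g N Q ≤ 16 * (W * M) * (1 + Real.log N) ^ 7 * N * (2 ^ U / Real.log K ^ U + 1 / T) +
      3 * M * (1 + Real.log N) ^ 5 * √(N : ℝ) := by
  obtain ⟨Y0, hY0, hb⟩ := per_bound U
  refine ⟨Y0, hY0, fun N K T Q hK hKN hT hTK hQ1 hQN hlev g hg h W M hW hp hM => ?_⟩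
  have hK4 : 4 ≤ K := hY0.trans hK
  have hN4 : 4 ≤ N := hK4.trans hKN
  have hN1 : 1 ≤ N := by omega
  have hM0 : 0 ≤ M := (abs_nonneg _).trans (hM 0)
  have hNr : (4 : ℝ) ≤ N := by exact_mod_cast hN4
  have hlN : 0 < Real.log N := Real.log_pos (by linarith)
  set ℓ := 1 + Real.log N with hℓ
  have hℓ1 : 1 ≤ ℓ := by linarith
  have hKr : (4 : ℝ) ≤ K := by exact_mod_cast hK4
  have hlK : 0 < Real.log K := Real.log_pos (by linarith)
  have hTr : (1 : ℝ) ≤ T := by exact_mod_cast hT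
  set Z := 2 ^ U / Real.log K ^ U + 1 / (T : ℝ) with hZ
  have hZ0 : 0 ≤ Z := by positivity
  have hsub : Icc 1 ⌊Q⌋₊ ⊆ Qs N K := by
    intro q hq
    rw [mem_Icc] at hq
    have h1 : (q : ℝ) ≤ Q := (Nat.le_floor_iff (by linarith)).1 hq.2
    rw [Qs, mem_filter, mem_Icc]
    refine ⟨⟨hq.1, ?_⟩, hlev q hq.1 h1⟩
    have : (q : ℝ) ≤ N := h1.trans hQN
    exact_mod_cast this
  have hsub2 : Icc 1 ⌊Q⌋₊ ⊆ Icc 1 N := hsub.trans (filter_subset _ _)
  have htw : ∀ q ∈ Icc 1 ⌊Q⌋₊, |tw h g q N| ≤ W * M * dl U N q K + (if q ∣ N then M * ℓ else 0) := by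
    intro q hq
    have h1 := hsub hq
    rw [Qs, mem_filter, mem_Icc] at h1
    exact tw_per (U := U) (K := K) hg hM hN1 (hb N q K h1.1.1 hK h1.2 g hg h W M hW hp hM)
  have hsd := sum_dl U N K T hN4 hK4 hT hTK
  have hdl0 : ∀ q, 0 ≤ dl U N q K := fun q => dl_nonneg U N q K hN1 (by omega)
  have h1mem : 1 ∈ Icc 1 ⌊Q⌋₊ := mem_Icc.2 ⟨le_rfl, Nat.le_floor (by exact_mod_cast hQ1)⟩
  have hS1 : ∑ q ∈ Icc 1 ⌊Q⌋₊, dl U N q K ≤ 8 * ℓ ^ 3 * N * Z :=
    (sum_le_sum_of_subset_of_nonneg hsub fun q _ _ => hdl0 q).trans hsd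
  have hd1 : dl U N 1 K ≤ 8 * ℓ ^ 3 * N * Z :=
    (single_le_sum (f := fun q => dl U N q K) (fun q _ => hdl0 q) h1mem).trans hS1
  have hA : ∑ q ∈ Icc 1 ⌊Q⌋₊, |tw h g q N| ≤ W * M * (8 * ℓ ^ 3 * N * Z) + 2 * √(N : ℝ) * (M * ℓ) := by
    refine (sum_le_sum htw).trans ?_
    rw [sum_add_distrib, ← mul_sum]
    exact add_le_add (mul_le_mul_of_nonneg_left hS1 (by positivity))
      (sum_dvd_le N hN1 _ (by positivity) _ hsub2)
  have hB1 : |tw h g 1 N| ≤ W * M * (8 * ℓ ^ 3 * N * Z) + M * ℓ := by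
    have h1 := htw 1 h1mem
    rw [if_pos (one_dvd _)] at h1
    have h2 := mul_le_mul_of_nonneg_left hd1 (show 0 ≤ W * M by positivity)
    linarith
  have htot : ∑ q ∈ Icc 1 ⌊Q⌋₊, 1 / (Nat.totient q : ℝ) ≤ ℓ ^ 4 :=
    (sum_le_sum_of_subset_of_nonneg hsub2 fun _ _ _ => by positivity).trans (sum_tot N hN1)
  have hmain : dis h g N Q ≤ ∑ q ∈ Icc 1 ⌊Q⌋₊, |tw h g q N| +
      (∑ q ∈ Icc 1 ⌊Q⌋₊, 1 / (Nat.totient q : ℝ)) * |tw h g 1 N| := by
    unfold dis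
    refine (sum_le_sum_of_subset_of_nonneg (filter_subset _ _) fun _ _ _ => abs_nonneg _).trans ?_
    rw [sum_mul, ← sum_add_distrib]
    apply sum_le_sum
    intro q _
    refine (abs_sub _ _).trans ?_
    rw [abs_mul, abs_of_nonneg (show 0 ≤ 1 / (Nat.totient q : ℝ) by positivity)]
  have hs1 : 1 ≤ √(N : ℝ) := Real.one_le_sqrt.2 (by linarith)
  have e1 : 1 ≤ ℓ ^ 4 := one_le_pow₀ hℓ1
  calc dis h g N Q ≤ (W * M * (8 * ℓ ^ 3 * N * Z) + 2 * √(N : ℝ) * (M * ℓ)) +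
        ℓ ^ 4 * (W * M * (8 * ℓ ^ 3 * N * Z) + M * ℓ) :=
        hmain.trans (add_le_add hA (mul_le_mul htot hB1 (abs_nonneg _) (by positivity)))
    _ ≤ (ℓ ^ 4 * (W * M * (8 * ℓ ^ 3 * N * Z)) + ℓ ^ 4 * (2 * √(N : ℝ) * (M * ℓ))) +
        (ℓ ^ 4 * (W * M * (8 * ℓ ^ 3 * N * Z)) + ℓ ^ 4 * (√(N : ℝ) * (M * ℓ))) := by
        have a1 : 0 ≤ W * M * (8 * ℓ ^ 3 * N * Z) := by positivity
        have a2 : 0 ≤ 2 * √(N : ℝ) * (M * ℓ) := by positivity
        have a3 : W * M * (8 * ℓ ^ 3 * N * Z) ≤ ℓ ^ 4 * (W * M * (8 * ℓ ^ 3 * N * Z)) := by nlinarith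
        have a4 : 2 * √(N : ℝ) * (M * ℓ) ≤ ℓ ^ 4 * (2 * √(N : ℝ) * (M * ℓ)) := by nlinarith
        have a5 : M * ℓ ≤ √(N : ℝ) * (M * ℓ) := by
          have : 0 ≤ M * ℓ := by positivity
          nlinarith
        have a6 := mul_le_mul_of_nonneg_left a5 (show 0 ≤ ℓ ^ 4 by positivity)
        linarith
    _ = _ := by ring

end Pool.Agent.V7H39.DE
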