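import Pool.Agent.V7H39.DE.Wint
import Pool.Agent.V7H39.DE.Cram
import Pool.Agent.V7H39.DE.Per

/-!
The two half-random models.
-/

set_option autoImplicit false

namespace Pool.Agent.V7H39.DE

open Finset Filter MeasureTheory ProbabilityTheory Topology
open Pool.Agent.R311.DEH

lemma tw_add (w w' g : ℕ → ℝ) (q N : ℕ) : tw (fun n => w n + w' n) g q N = tw w g q N + tw w' g q N := by
  unfold tw
  rw [← sum_add_distrib]
  exact sum_congr rfl fun n _ => by ring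

lemma dis_add (w w' g : ℕ → ℝ) (N : ℕ) (Q : ℝ) : dis (fun n => w n + w' n) g N Q ≤ dis w g N Q + dis w' g N Q := by
  unfold dis
  rw [← sum_add_distrib]
  apply sum_le_sum
  intro q _
  rw [tw_add, tw_add]
  refine le_trans (le_of_eq ?_) (abs_add_le _ _)
  congr 1
  ring

lemma dis_mono (w g : ℕ → ℝ) (N : ℕ) {Q Q' : ℝ} (h : Q ≤ Q') : dis w g N Q ≤ dis w g N Q' := by
  unfold dis
  apply sum_le_sum_of_subset_of_nonneg
  · intro q hq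
    rw [mem_filter, mem_Icc] at hq ⊢
    exact ⟨⟨hq.1.1, hq.1.2.trans (Nat.floor_le_floor h)⟩, hq.2⟩
  · intro _ _ _; exact abs_nonneg _

lemma ev_exp_half (c M : ℝ) (hc : 0 < c) (j : ℕ) :
    ∀ᶠ ℓ : ℝ in atTop, M * (1 + ℓ) ^ j ≤ Real.exp (ℓ ^ c / 2) := by
  have h1 := ev_pow_exp (c / 2) M (by linarith) j
  have h2 : Tendsto (fun ℓ : ℝ => ℓ ^ (c / 2)) atTop atTop := tendsto_rpow_atTop (by linarith)
  filter_upwards [h1, h2.eventually_ge_atTop 2, eventually_ge_atTop (1 : ℝ)] with ℓ a1 a2 a3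
  refine a1.trans (Real.exp_le_exp.2 ?_)
  have e1 : (ℓ / 2) ^ (c / 2) ≤ ℓ ^ (c / 2) :=
    Real.rpow_le_rpow (by linarith) (by linarith) (by linarith)
  have e2 : ℓ ^ c = ℓ ^ (c / 2) * ℓ ^ (c / 2) := by
    rw [← Real.rpow_add (by linarith)]; congr 1; ring
  rw [e2]
  nlinarith

/-- powers of `1 + log N` against `√N` -/
lemma ev_sqrt (M : ℝ) (j : ℕ) : ∀ᶠ N : ℕ in atTop, M * (1 + Real.log N) ^ j ≤ √(N : ℝ) := by
  have h1 := tlog.eventually (ev_pow_exp 1 M one_pos j)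
  filter_upwards [h1, eventually_ge_atTop 1] with N a1 a2
  refine a1.trans (le_of_eq ?_)
  have hN0 : (0 : ℝ) < N := by exact_mod_cast a2
  rw [Real.rpow_one, Real.sqrt_eq_rpow, Real.rpow_def_of_pos hN0]
  congr 1
  ring

lemma level' (c : ℝ) (hc : 0 < c) (N : ℕ) (hN : 1 ≤ N) (q : ℕ) (hq : 1 ≤ q)
    (hqN : (q : ℝ) ≤ N * Real.exp (-(Real.log N) ^ c)) : KK' c N ≤ N / q := by
  apply level c hc N N hN _ le_rfl q hq hqN
  have hN0 : (0 : ℝ) < N := by exact_mod_cast hN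
  have hl : 0 ≤ Real.log N := Real.log_nonneg (by exact_mod_cast hN)
  calc Real.exp (Real.log N / 2) ≤ Real.exp (Real.log N) := Real.exp_le_exp.2 (by linarith)
    _ = N := Real.exp_log hN0

/-- random weights with periodic mean values, small exponent `c` -/
lemma fin_small {X h g : ℕ → ℝ} {B M : ℝ} {W : ℕ} (hB : 0 < B) (hg : g = g1 ∨ g = g2) (hW : 1 ≤ W)
    (hp : ∀ n, h (n + W) = h n) (hM : ∀ n, |h n| ≤ M)
    (hX : ∀ᶠ N : ℕ in atTop, ∀ q ∈ Icc 1 N,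
      |tw (fun n => X n - h n) g q N| ≤ √((N : ℝ) / q) * (B * (1 + Real.log N) ^ 4))
    (c : ℝ) (hc : 0 < c) (hc1 : c ≤ 1) (A : ℕ) :
    ∀ᶠ N : ℕ in atTop, dis X g N (N * Real.exp (-(Real.log N) ^ c)) ≤ N / (1 + Real.log N) ^ A := by
  have hM0 : 0 ≤ M := (abs_nonneg _).trans (hM 0)
  obtain ⟨U, X1, hU⟩ := U_ex c hc (A + 8)
  obtain ⟨Y0, hY0, hdis⟩ := dis_per U
  obtain ⟨X2, hK1⟩ := K_large c hc Y0
  obtain ⟨X3, hK2⟩ := K_le c hc hc1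
  obtain ⟨X4, hT⟩ := T_ex c hc (A + 8)
  have hn := tlog.eventually (ev_exp_half c (18 * B) hc (4 + A))
  have hs := ev_sqrt (9 * M) (5 + A)
  filter_upwards [hX, eventually_ge_atTop (X1 + X2 + X3 + X4 + 3), hn, hs,
    tlog.eventually_ge_atTop (96 * (W * M) + 1)] with N a1 a2 a3 a4 a5
  have hN3 : 3 ≤ N := by omega
  have hN1 : 1 ≤ N := by omega
  have hN0 : (0 : ℝ) < N := by exact_mod_cast hN1
  have hN1' : (1 : ℝ) ≤ N := by exact_mod_cast hN1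
  have hl1 : 1 ≤ Real.log N := by
    have : 0 ≤ 96 * (W * M) := by positivity
    linarith
  set ℓ := 1 + Real.log N with hℓ
  have hℓ1 : 1 ≤ ℓ := by linarith
  have hℓ0 : 0 < ℓ := by linarith
  set Q := (N : ℝ) * Real.exp (-(Real.log N) ^ c) with hQ
  have hQN : Q ≤ N := by
    have : Real.exp (-(Real.log N) ^ c) ≤ 1 := by
      rw [Real.exp_le_one_iff]
      have : 0 ≤ (Real.log N) ^ c := Real.rpow_nonneg (by linarith) _
      linarith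
    nlinarith
  have hQ1 : 1 ≤ Q := by
    have e1 : (Real.log N) ^ c ≤ Real.log N := by
      calc (Real.log N) ^ c ≤ (Real.log N) ^ (1 : ℝ) := Real.rpow_le_rpow_of_exponent_le hl1 hc1
        _ = _ := Real.rpow_one _
    calc (1 : ℝ) = N * Real.exp (-Real.log N) := by
          rw [Real.exp_neg, Real.exp_log hN0, mul_inv_cancel₀ hN0.ne']
      _ ≤ Q := mul_le_mul_of_nonneg_left (Real.exp_le_exp.2 (by linarith)) hN0.le
  obtain ⟨T, hT1, hTct, hTge⟩ := hT N (by omega)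
  have b1 := hdis N (KK' c N) T Q (hK1 N (by omega)) (hK2 N (by omega)) hT1 hTct hQ1 hQN
    (fun q hq hqQ => level' c hc N hN1 q hq hqQ) g hg h W M hW hp hM
  have b2 : 2 ^ U / Real.log (KK' c N) ^ U + 1 / (T : ℝ) ≤ 2 / ℓ ^ (A + 8) := by
    have h1 : 1 / (T : ℝ) ≤ 1 / ℓ ^ (A + 8) := one_div_le_one_div_of_le (by positivity) hTge
    calc _ ≤ 1 / ℓ ^ (A + 8) + 1 / ℓ ^ (A + 8) := add_le_add (hU N (by omega)) h1
      _ = _ := by ring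
  have b3 : 16 * (W * M) * ℓ ^ 7 * N * (2 ^ U / Real.log (KK' c N) ^ U + 1 / T) ≤ (1 / 3) * (N / ℓ ^ A) := by
    calc _ ≤ 16 * (W * M) * ℓ ^ 7 * N * (2 / ℓ ^ (A + 8)) := mul_le_mul_of_nonneg_left b2 (by positivity)
      _ = (N / ℓ ^ A) * (32 * (W * M) / ℓ) := by
        rw [pow_add ℓ A 8, show ℓ ^ 8 = ℓ ^ 7 * ℓ by ring]
        field_simp
        ring
      _ ≤ (N / ℓ ^ A) * (1 / 3) := by
        apply mul_le_mul_of_nonneg_left _ (by positivity)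
        rw [div_le_iff₀ hℓ0]
        linarith
      _ = _ := by ring
  have hsq : √(N : ℝ) * √(N : ℝ) = N := Real.mul_self_sqrt hN0.le
  have b4 : 3 * M * ℓ ^ 5 * √(N : ℝ) ≤ (1 / 3) * (N / ℓ ^ A) := by
    rw [show (1 / 3 : ℝ) * (N / ℓ ^ A) = N / (3 * ℓ ^ A) by field_simp, le_div_iff₀ (by positivity)]
    calc 3 * M * ℓ ^ 5 * √(N : ℝ) * (3 * ℓ ^ A) = 9 * M * ℓ ^ (5 + A) * √(N : ℝ) := by
          rw [pow_add]; ring
      _ ≤ √(N : ℝ) * √(N : ℝ) := mul_le_mul_of_nonneg_right a4 (Real.sqrt_nonneg _)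
      _ = N := hsq
  have b5 := dis_le (fun n => X n - h n) g N Q (B * ℓ ^ 4) hN1 hQ1 hQN (by positivity) a1
  have b6 : 6 * √((N : ℝ) * Q) * (B * ℓ ^ 4) ≤ (1 / 3) * (N / ℓ ^ A) := by
    have e1 : √((N : ℝ) * Q) = N * Real.exp (-((Real.log N) ^ c / 2)) := by
      rw [Real.sqrt_eq_iff_mul_self_eq (by positivity) (by positivity), hQ]
      have : Real.exp (-(Real.log N) ^ c) = Real.exp (-((Real.log N) ^ c / 2)) * Real.exp (-((Real.log N) ^ c / 2)) := by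
        rw [← Real.exp_add]; congr 1; ring
      rw [this]
      ring
    rw [e1, show (1 / 3 : ℝ) * (N / ℓ ^ A) = N / (3 * ℓ ^ A) by field_simp, le_div_iff₀ (by positivity)]
    calc 6 * (N * Real.exp (-((Real.log N) ^ c / 2))) * (B * ℓ ^ 4) * (3 * ℓ ^ A) =
        N * ((18 * B * ℓ ^ (4 + A)) * Real.exp (-((Real.log N) ^ c / 2))) := by rw [pow_add]; ring
      _ ≤ N * (Real.exp ((Real.log N) ^ c / 2) * Real.exp (-((Real.log N) ^ c / 2))) := by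
          apply mul_le_mul_of_nonneg_left _ hN0.le
          exact mul_le_mul_of_nonneg_right a3 (Real.exp_pos _).le
      _ = N := by rw [← Real.exp_add, add_neg_cancel, Real.exp_zero, mul_one]
  have b7 := dis_add (fun n => X n - h n) h g N Q
  simp only [sub_add_cancel] at b7
  calc dis X g N Q ≤ _ := b7
    _ ≤ (1 / 3) * (N / ℓ ^ A) + ((1 / 3) * (N / ℓ ^ A) + (1 / 3) * (N / ℓ ^ A)) :=
        add_le_add (b5.trans b6) (b1.trans (add_le_add b3 b4))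
    _ = _ := by ring

/-- random weights with periodic mean values -/
lemma fin_all {X h g : ℕ → ℝ} {B M : ℝ} {W : ℕ} (hB : 0 < B) (hg : g = g1 ∨ g = g2) (hW : 1 ≤ W)
    (hp : ∀ n, h (n + W) = h n) (hM : ∀ n, |h n| ≤ M)
    (hX : ∀ᶠ N : ℕ in atTop, ∀ q ∈ Icc 1 N,
      |tw (fun n => X n - h n) g q N| ≤ √((N : ℝ) / q) * (B * (1 + Real.log N) ^ 4))
    (c : ℝ) (hc : 0 < c) (A : ℝ) :
    ∀ᶠ N : ℕ in atTop, dis X g N (N * Real.exp (-(Real.log N) ^ c)) ≤ N * (Real.log N) ^ (-A) := by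
  obtain ⟨k, hk⟩ := exists_nat_ge A
  have h1 := fin_small hB hg hW hp hM hX (min c 1) (lt_min hc one_pos) (min_le_right _ _) k
  filter_upwards [h1, tlog.eventually_ge_atTop 1, eventually_ge_atTop 1] with N a1 a2 a3
  have hN0 : (0 : ℝ) < N := by exact_mod_cast a3
  have e1 : (N : ℝ) * Real.exp (-(Real.log N) ^ c) ≤ N * Real.exp (-(Real.log N) ^ (min c 1)) := by
    apply mul_le_mul_of_nonneg_left _ hN0.le
    apply Real.exp_le_exp.2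
    apply neg_le_neg
    exact Real.rpow_le_rpow_of_exponent_le a2 (min_le_left _ _)
  refine (dis_mono X g N e1).trans (a1.trans ?_)
  rw [div_eq_mul_inv]
  apply mul_le_mul_of_nonneg_left _ hN0.le
  rw [Real.rpow_neg (by linarith)]
  apply inv_anti₀ (Real.rpow_pos_of_pos (by linarith) _)
  calc (Real.log N) ^ A ≤ (Real.log N) ^ (k : ℝ) := Real.rpow_le_rpow_of_exponent_le a2 hk
    _ = (Real.log N) ^ k := Real.rpow_natCast _ _
    _ ≤ (1 + Real.log N) ^ k := pow_le_pow_left₀ (by linarith) (by linarith) _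

lemma ev_theta (θ : ℝ) (hθ : θ < 1) : ∀ᶠ N : ℕ in atTop,
    (N : ℝ) ^ θ ≤ N * Real.exp (-(Real.log N) ^ ((1 : ℝ) / 2)) := by
  have h2 : Tendsto (fun ℓ : ℝ => ℓ ^ ((1 : ℝ) / 2)) atTop atTop := tendsto_rpow_atTop (by norm_num)
  have h3 := (h2.comp tlog).eventually_ge_atTop (1 / (1 - θ))
  filter_upwards [h3, eventually_ge_atTop 3] with N a1 a2
  have hN0 : (0 : ℝ) < N := by exact_mod_cast (by omega : 0 < N)
  have hl : 0 < Real.log N := Real.log_pos (by exact_mod_cast (by omega : 1 < N))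
  have hθ0 : 0 < 1 - θ := by linarith
  simp only [Function.comp] at a1
  rw [div_le_iff₀ hθ0] at a1
  have e1 : Real.log N = (Real.log N) ^ ((1 : ℝ) / 2) * (Real.log N) ^ ((1 : ℝ) / 2) := by
    rw [← Real.rpow_add hl]; norm_num
  have e2 : (Real.log N) ^ ((1 : ℝ) / 2) ≤ (1 - θ) * Real.log N := by
    have e3 : 0 ≤ (Real.log N) ^ ((1 : ℝ) / 2) := Real.rpow_nonneg hl.le _
    calc (Real.log N) ^ ((1 : ℝ) / 2) = 1 * (Real.log N) ^ ((1 : ℝ) / 2) := (one_mul _).symm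
      _ ≤ ((Real.log N) ^ ((1 : ℝ) / 2) * (1 - θ)) * (Real.log N) ^ ((1 : ℝ) / 2) :=
          mul_le_mul_of_nonneg_right a1 e3
      _ = (1 - θ) * ((Real.log N) ^ ((1 : ℝ) / 2) * (Real.log N) ^ ((1 : ℝ) / 2)) := by ring
      _ = _ := by rw [← e1]
  calc (N : ℝ) ^ θ = Real.exp (Real.log N * θ) := Real.rpow_def_of_pos hN0 _
    _ ≤ Real.exp (Real.log N + -(Real.log N) ^ ((1 : ℝ) / 2)) := Real.exp_le_exp.2 (by linarith)
    _ = _ := by rw [Real.exp_add, Real.exp_log hN0]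

/-- random multiplicative functions -/
lemma fin_wint {w g : ℕ → ℝ}
    (hs : ∀ δ : ℝ, 0 < δ → ∀ᶠ N : ℕ in atTop, ∀ q ∈ Icc 1 N, |tw w g q N| ≤ √((N : ℝ) / q) * (N : ℝ) ^ δ)
    (θ ε : ℝ) (h0 : 0 < θ) (h1 : θ < 1) (hε : 0 < ε) :
    ∀ᶠ N : ℕ in atTop, dis w g N ((N : ℝ) ^ θ) ≤ (N : ℝ) ^ ((1 + θ) / 2 + ε) := by
  have h6 : ∀ᶠ N : ℕ in atTop, (6 : ℝ) ≤ (N : ℝ) ^ (ε / 2) :=
    ((tendsto_rpow_atTop (show 0 < ε / 2 by linarith)).comp tendsto_natCast_atTop_atTop).eventually_ge_atTop 6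
  filter_upwards [hs (ε / 2) (by linarith), h6, eventually_ge_atTop 1] with N a1 a2 a3
  have hN0 : (0 : ℝ) < N := by exact_mod_cast a3
  have hN1 : (1 : ℝ) ≤ N := by exact_mod_cast a3
  have hQ1 : 1 ≤ (N : ℝ) ^ θ := Real.one_le_rpow hN1 h0.le
  have hQN : (N : ℝ) ^ θ ≤ N := by
    calc (N : ℝ) ^ θ ≤ (N : ℝ) ^ (1 : ℝ) := Real.rpow_le_rpow_of_exponent_le hN1 h1.le
      _ = N := Real.rpow_one _
  refine (dis_le w g N _ _ a3 hQ1 hQN (Real.rpow_nonneg hN0.le _) a1).trans ?_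
  have e1 : √((N : ℝ) * (N : ℝ) ^ θ) = (N : ℝ) ^ ((1 + θ) / 2) := by
    rw [Real.sqrt_eq_rpow, ← Real.rpow_one_add' hN0.le (by linarith), ← Real.rpow_mul hN0.le]
    congr 1
    ring
  rw [e1]
  calc 6 * (N : ℝ) ^ ((1 + θ) / 2) * (N : ℝ) ^ (ε / 2) ≤
      (N : ℝ) ^ (ε / 2) * (N : ℝ) ^ ((1 + θ) / 2) * (N : ℝ) ^ (ε / 2) := by gcongr
    _ = (N : ℝ) ^ ((1 + θ) / 2 + ε) := by
      rw [← Real.rpow_add hN0, ← Real.rpow_add hN0]
      congr 1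
      ring

lemma tp_mod (w g : ℕ → ℝ) (q a y N : ℕ) : tp w g q a y N = tp w g q (a % q) y N := by
  unfold tp
  congr 1
  apply filter_congr
  intro n _
  constructor
  · intro h; exact h.trans (Nat.mod_modEq a q).symm
  · intro h; exact h.trans (Nat.mod_modEq a q)

/-- maxima over residue classes and over initial segments -/
lemma fin_max {w g : ℕ → ℝ}
    (hs : ∀ δ : ℝ, 0 < δ → ∀ᶠ N : ℕ in atTop, ∀ q ∈ Icc 1 N, ∀ a y : ℕ, y ≤ N →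
      |tp w g q a y N| ≤ √((N : ℝ) / q) * (N : ℝ) ^ δ)
    (θ ε : ℝ) (h0 : 0 < θ) (h1 : θ < 1) (hε : 0 < ε) :
    ∀ᶠ N : ℕ in atTop, ∀ a y : ℕ → ℕ, (∀ q, y q ≤ N) →
      ∑ q ∈ Icc 1 ⌊(N : ℝ) ^ θ⌋₊, |tp w g q (a q) (y q) N| ≤ (N : ℝ) ^ ((1 + θ) / 2 + ε) := by
  have h6 : ∀ᶠ N : ℕ in atTop, (2 : ℝ) ≤ (N : ℝ) ^ (ε / 2) :=
    ((tendsto_rpow_atTop (show 0 < ε / 2 by linarith)).comp tendsto_natCast_atTop_atTop).eventually_ge_atTop 2
  filter_upwards [hs (ε / 2) (by linarith), h6, eventually_ge_atTop 1] with N a1 a2 a3 a y hy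
  have hN0 : (0 : ℝ) < N := by exact_mod_cast a3
  have hN1 : (1 : ℝ) ≤ N := by exact_mod_cast a3
  have hQ0 : 0 ≤ (N : ℝ) ^ θ := Real.rpow_nonneg hN0.le _
  have hQN : (N : ℝ) ^ θ ≤ N := by
    calc (N : ℝ) ^ θ ≤ (N : ℝ) ^ (1 : ℝ) := Real.rpow_le_rpow_of_exponent_le hN1 h1.le
      _ = N := Real.rpow_one _
  have hfl : ⌊(N : ℝ) ^ θ⌋₊ ≤ N := Nat.floor_le_of_le hQN
  have hε0 : 0 ≤ (N : ℝ) ^ (ε / 2) := Real.rpow_nonneg hN0.le _
  have e0 : √((N : ℝ) * (N : ℝ) ^ θ) = (N : ℝ) ^ ((1 + θ) / 2) := by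
    rw [Real.sqrt_eq_rpow, ← Real.rpow_one_add' hN0.le (by linarith), ← Real.rpow_mul hN0.le]
    congr 1
    ring
  calc ∑ q ∈ Icc 1 ⌊(N : ℝ) ^ θ⌋₊, |tp w g q (a q) (y q) N| ≤
      ∑ q ∈ Icc 1 ⌊(N : ℝ) ^ θ⌋₊, √(N : ℝ) * (N : ℝ) ^ (ε / 2) * (1 / √(q : ℝ)) := by
        apply sum_le_sum
        intro q hq
        rw [mem_Icc] at hq
        refine (a1 q (mem_Icc.2 ⟨hq.1, hq.2.trans hfl⟩) (a q) (y q) (hy q)).trans (le_of_eq ?_)
        rw [Real.sqrt_div hN0.le]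
        ring
    _ = √(N : ℝ) * (N : ℝ) ^ (ε / 2) * ∑ q ∈ Icc 1 ⌊(N : ℝ) ^ θ⌋₊, 1 / √(q : ℝ) := by rw [mul_sum]
    _ ≤ √(N : ℝ) * (N : ℝ) ^ (ε / 2) * (2 * √(⌊(N : ℝ) ^ θ⌋₊ : ℝ)) :=
        mul_le_mul_of_nonneg_left (sum_rsqrt _) (by positivity)
    _ ≤ √(N : ℝ) * (N : ℝ) ^ (ε / 2) * (2 * √((N : ℝ) ^ θ)) := by
        have : √(⌊(N : ℝ) ^ θ⌋₊ : ℝ) ≤ √((N : ℝ) ^ θ) := Real.sqrt_le_sqrt (Nat.floor_le hQ0)
        gcongr
    _ = 2 * (√((N : ℝ) * (N : ℝ) ^ θ) * (N : ℝ) ^ (ε / 2)) := by rw [Real.sqrt_mul hN0.le]; ring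
    _ ≤ (N : ℝ) ^ (ε / 2) * (√((N : ℝ) * (N : ℝ) ^ θ) * (N : ℝ) ^ (ε / 2)) :=
        mul_le_mul_of_nonneg_right a2 (by positivity)
    _ = (N : ℝ) ^ ((1 + θ) / 2 + ε) := by
      rw [e0, ← Real.rpow_add hN0, ← Real.rpow_add hN0]
      congr 1
      ring

section prob

variable {Ω : Type} [MeasurableSpace Ω] {P : Measure Ω} [IsProbabilityMeasure P]

theorem wintner {s : ℕ → Ω → ℝ} (h : Signs P s) (w c : ℕ → ℝ) (hw : Slow w) (hc : Slow c) :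
    ∀ᵐ ω ∂P, ∀ θ ε : ℝ, 0 < θ → θ < 1 → 0 < ε → ∀ᶠ N : ℕ in atTop,
      dis w (fun m => c m * rmu (fun p => s p ω) m) N ((N : ℝ) ^ θ) ≤ (N : ℝ) ^ ((1 + θ) / 2 + ε) ∧
      ∀ a y : ℕ → ℕ, (∀ q, y q ≤ N) → ∑ q ∈ Icc 1 ⌊(N : ℝ) ^ θ⌋₊,
        |tp w (fun m => c m * rmu (fun p => s p ω) m) q (a q) (y q) N| ≤ (N : ℝ) ^ ((1 + θ) / 2 + ε) := by
  have h1 : ∀ᵐ ω ∂P, ∀ k : ℕ, ∀ᶠ N : ℕ in atTop, ∀ q ∈ Icc 1 N, ∀ a ∈ range N, ∀ y ∈ range (N + 1),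
      |tp w (fun m => c m * rmu (fun p => s p ω) m) q a y N| ≤ √((N : ℝ) / q) * (N : ℝ) ^ (1 / ((k : ℝ) + 1)) :=
    ae_all_iff.2 fun k => h.all_small w c hw hc _ (by positivity)
  filter_upwards [h1] with ω hω θ ε h0 h1 hε
  have h2 : ∀ δ : ℝ, 0 < δ → ∀ᶠ N : ℕ in atTop, ∀ q ∈ Icc 1 N, ∀ a y : ℕ, y ≤ N →
      |tp w (fun m => c m * rmu (fun p => s p ω) m) q a y N| ≤ √((N : ℝ) / q) * (N : ℝ) ^ δ := by
    intro δ hδ
    obtain ⟨k, hk⟩ := exists_nat_one_div_lt hδ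
    filter_upwards [hω k, eventually_ge_atTop 1] with N a1 a2 q hq a y hy
    have hN1 : (1 : ℝ) ≤ N := by exact_mod_cast a2
    have hq1 := (mem_Icc.1 hq).1
    have hqN := (mem_Icc.1 hq).2
    rw [tp_mod]
    refine (a1 q hq (a % q) ?_ y (mem_range.2 (by omega))).trans
      (mul_le_mul_of_nonneg_left ?_ (Real.sqrt_nonneg _))
    · rw [mem_range]
      exact (Nat.mod_lt _ hq1).trans_le hqN
    · exact Real.rpow_le_rpow_of_exponent_le hN1 hk.le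
  have h3 := fin_wint (w := w) (g := fun m => c m * rmu (fun p => s p ω) m) (fun δ hδ => by
    filter_upwards [h2 δ hδ] with N a1 q hq
    have := a1 q hq N N le_rfl
    exact this) θ ε h0 h1 hε
  have h4 := fin_max (w := w) (g := fun m => c m * rmu (fun p => s p ω) m) h2 θ ε h0 h1 hε
  filter_upwards [h3, h4] with N b1 b2
  exact ⟨b1, b2⟩

theorem cramer {X : ℕ → Ω → ℝ} {h : ℕ → ℝ} {B : ℝ} (H : Weights P X h B) (hB : 0 < B) {W : ℕ} (hW : 1 ≤ W)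
    (hp : ∀ n, h (n + W) = h n) :
    ∀ᵐ ω ∂P, ∀ g : ℕ → ℝ, (g = g1 ∨ g = g2) → ∀ c A : ℝ, 0 < c → ∀ᶠ N : ℕ in atTop,
      dis (fun n => X n ω) g N (N * Real.exp (-(Real.log N) ^ c)) ≤ N * (Real.log N) ^ (-A) := by
  have hM : ∃ M : ℝ, ∀ n, |h n| ≤ M := by
    refine ⟨∑ r ∈ range W, |h r|, fun n => ?_⟩
    have h1 : h n = h (n % W) := by
      conv_lhs => rw [← Nat.mod_add_div n W]
      exact per_add hp _ _
    rw [h1]
    exact single_le_sum (f := fun r => |h r|) (fun _ _ => abs_nonneg _) (mem_range.2 (Nat.mod_lt _ hW))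
  obtain ⟨M, hM⟩ := hM
  have h1 := H.all_small hB g1 (g_abs g1 (Or.inl rfl))
  have h2 := H.all_small hB g2 (g_abs g2 (Or.inr rfl))
  filter_upwards [h1, h2] with ω a1 a2 g hg c A hc
  rcases hg with rfl | rfl
  · exact fin_all hB (Or.inl rfl) hW hp hM a1 c hc A
  · exact fin_all hB (Or.inr rfl) hW hp hM a2 c hc A

end prob

end Pool.Agent.V7H39.DE
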