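import Pool.Agent.V7H39.DE.Base
import Pool.Agent.TH661.LPX.Bon

/-!
Twisted sums with the random multiplicative function of Wintner.
-/

set_option autoImplicit false

namespace Pool.Agent.V7H39.DE

open Finset MeasureTheory ProbabilityTheory Filter
open Pool.Agent.TH661.LPX (av ind sg sg_cases)

/-- the multiplicative function with the values `s p` at the primes, supported at the squarefree numbers -/
noncomputable def rmu (s : ℕ → ℝ) (m : ℕ) : ℝ := if Squarefree m then ∏ p ∈ m.primeFactors, s p else 0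

/-- the primes below `N` -/
def PN (N : ℕ) : Finset ℕ := (range N).filter Nat.Prime

/-- the product of a set of primes -/
def pr {N : ℕ} (T : Finset (PN N)) : ℕ := ∏ p ∈ T, (p : ℕ)

lemma PN_prime {N : ℕ} (p : PN N) : (p : ℕ).Prime := (mem_filter.1 p.2).2

lemma pr_eq {N : ℕ} (T : Finset (PN N)) : pr T = ∏ p ∈ T.map (Function.Embedding.subtype _), p := by
  rw [prod_map]; rfl

lemma pf_pr {N : ℕ} (T : Finset (PN N)) : (pr T).primeFactors = T.map (Function.Embedding.subtype _) := by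
  rw [pr_eq]
  apply Nat.primeFactors_prod
  intro p hp
  rw [Finset.mem_map] at hp
  obtain ⟨a, _, rfl⟩ := hp
  exact PN_prime a

lemma sqf_pr {N : ℕ} (T : Finset (PN N)) : Squarefree (pr T) := by
  classical
  unfold pr
  induction T using Finset.induction_on with
  | empty => simp
  | insert a T ha ih =>
    rw [prod_insert ha, Nat.squarefree_mul_iff]
    refine ⟨?_, (PN_prime a).squarefree, ih⟩
    apply Nat.Coprime.prod_right
    intro b hb
    rw [Nat.coprime_primes (PN_prime a) (PN_prime b)]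
    intro h
    exact ha (Subtype.ext h ▸ hb)

lemma rmu_pr {N : ℕ} (s : ℕ → ℝ) (T : Finset (PN N)) : rmu s (pr T) = ∏ p ∈ T, s p := by
  unfold rmu
  rw [if_pos (sqf_pr T), pf_pr, prod_map]
  rfl

lemma card_pr {N : ℕ} (T : Finset (PN N)) : (pr T).primeFactors.card = T.card := by
  rw [pf_pr, card_map]

lemma sum_T (N : ℕ) (R : Finset ℕ) (hR : R ⊆ Ico 1 N) (F : ℕ → ℝ) (G : Finset (PN N) → ℝ)
    (hG : ∀ T, G T = F (pr T)) :
    ∑ T : Finset (PN N), (if pr T ∈ R then G T else 0) = ∑ m ∈ R.filter Squarefree, F m := by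
  have key : ∀ m ∈ R.filter Squarefree, pr (m.primeFactors.subtype (· ∈ PN N)) = m := by
    intro m hm
    rw [mem_filter] at hm
    have hm1 := mem_Ico.1 (hR hm.1)
    rw [pr_eq, Finset.subtype_map, filter_true_of_mem]
    · exact Nat.prod_primeFactors_of_squarefree hm.2
    · intro p hp
      have h1 := Nat.prime_of_mem_primeFactors hp
      have h2 := Nat.le_of_mem_primeFactors hp
      exact mem_filter.2 ⟨mem_range.2 (by omega), h1⟩
  rw [← sum_filter]
  refine Finset.sum_nbij' (fun T => pr T) (fun m => m.primeFactors.subtype (· ∈ PN N)) ?_ ?_ ?_ ?_ ?_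
  · intro T hT
    rw [mem_filter] at hT
    rw [mem_filter]
    exact ⟨hT.2, sqf_pr T⟩
  · intro m hm
    rw [mem_filter]
    rw [key m hm]
    exact ⟨mem_univ _, (mem_filter.1 hm).1⟩
  · intro T _
    ext p
    rw [mem_subtype, pf_pr, Finset.mem_map]
    constructor
    · rintro ⟨a, ha, h⟩
      have : a = p := Subtype.ext h
      rwa [← this]
    · intro h
      exact ⟨p, h, rfl⟩
  · intro m hm
    exact key m hm
  · intro T _
    exact hG T

/-- the coefficients -/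
noncomputable def cf (w c : ℕ → ℝ) (N : ℕ) (R : Finset ℕ) (T : Finset (PN N)) : ℝ :=
  if pr T ∈ R then w (N - pr T) * c (pr T) else 0

lemma tw_chaos (w c s : ℕ → ℝ) (N : ℕ) (R : Finset ℕ) (hR : R ⊆ Ico 1 N) :
    ∑ m ∈ R, w (N - m) * (c m * rmu s m) = ∑ T : Finset (PN N), cf w c N R T * ∏ p ∈ T, s p := by
  have h1 : ∑ T : Finset (PN N), cf w c N R T * ∏ p ∈ T, s p =
      ∑ T : Finset (PN N), (if pr T ∈ R then w (N - pr T) * (c (pr T) * rmu s (pr T)) else 0) := by
    apply sum_congr rfl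
    intro T _
    unfold cf
    rw [ite_mul, zero_mul]
    simp only [rmu_pr]
    congr 1
    ring
  rw [h1, sum_T N R hR (fun m => w (N - m) * (c m * rmu s m)) _ (fun T => rfl)]
  symm
  rw [sum_filter_of_ne]
  intro m _ hm
  by_contra hcon
  apply hm
  simp [rmu, hcon]

lemma cf_sq (w c : ℕ → ℝ) (hw : Slow w) (hc : Slow c) (r : ℕ) (η : ℝ) (hη : 0 < η) :
    ∃ C : ℝ, 0 < C ∧ ∀ (N : ℕ) (R : Finset ℕ), R ⊆ Ico 1 N →
      ∑ T : Finset (PN N), ((2 * r : ℕ) : ℝ) ^ T.card * cf w c N R T ^ 2 ≤ C * (N : ℝ) ^ η * R.card := by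
  obtain ⟨C1, hC1, h1⟩ := hw (η / 4) (by linarith)
  obtain ⟨C2, hC2, h2⟩ := (((slow_omega r).mul hc).mul hc) (η / 2) (by linarith)
  refine ⟨C1 ^ 2 * C2, by positivity, fun N R hR => ?_⟩
  have e1 : ∑ T : Finset (PN N), ((2 * r : ℕ) : ℝ) ^ T.card * cf w c N R T ^ 2 =
      ∑ T : Finset (PN N), (if pr T ∈ R then
        ((2 * r : ℕ) : ℝ) ^ T.card * (w (N - pr T) * c (pr T)) ^ 2 else 0) := by
    apply sum_congr rfl
    intro T _
    unfold cf
    split_ifs with h
    · rfl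
    · ring
  rw [e1, sum_T N R hR (fun m => ((2 * r : ℕ) : ℝ) ^ m.primeFactors.card * (w (N - m) * c m) ^ 2) _
    (fun T => by simp only [card_pr])]
  have e2 : ∀ m ∈ R.filter Squarefree,
      ((2 * r : ℕ) : ℝ) ^ m.primeFactors.card * (w (N - m) * c m) ^ 2 ≤ C1 ^ 2 * C2 * (N : ℝ) ^ η := by
    intro m hm
    have hm1 := mem_Ico.1 (hR (mem_filter.1 hm).1)
    have hN0 : (0 : ℝ) < N := by exact_mod_cast (by omega : 0 < N)
    have g1 : |w (N - m)| ≤ C1 * (N : ℝ) ^ (η / 4) := by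
      refine (h1 (N - m) (by omega)).trans (mul_le_mul_of_nonneg_left ?_ hC1.le)
      apply Real.rpow_le_rpow (by positivity) _ (by linarith)
      exact_mod_cast Nat.sub_le _ _
    have g2 := h2 m hm1.1
    have g3 : (m : ℝ) ^ (η / 2) ≤ (N : ℝ) ^ (η / 2) := by
      apply Real.rpow_le_rpow (by positivity) _ (by linarith)
      exact_mod_cast hm1.2.le
    calc ((2 * r : ℕ) : ℝ) ^ m.primeFactors.card * (w (N - m) * c m) ^ 2
        = |w (N - m)| ^ 2 * (((2 * r : ℕ) : ℝ) ^ m.primeFactors.card * c m * c m) := by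
          rw [sq_abs]; ring
      _ ≤ (C1 * (N : ℝ) ^ (η / 4)) ^ 2 * (C2 * (N : ℝ) ^ (η / 2)) := by
          apply mul_le_mul (pow_le_pow_left₀ (abs_nonneg _) g1 2) _ _ (by positivity)
          · exact (le_abs_self _).trans (g2.trans (mul_le_mul_of_nonneg_left g3 hC2.le))
          · rw [mul_assoc]
            exact mul_nonneg (by positivity) (mul_self_nonneg _)
      _ = C1 ^ 2 * C2 * (((N : ℝ) ^ (η / 4)) ^ 2 * (N : ℝ) ^ (η / 2)) := by ring
      _ = C1 ^ 2 * C2 * (N : ℝ) ^ η := by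
          rw [← Real.rpow_natCast ((N : ℝ) ^ (η / 4)), ← Real.rpow_mul hN0.le, ← Real.rpow_add hN0]
          congr 2
          push_cast
          ring
  calc _ ≤ ∑ m ∈ R.filter Squarefree, C1 ^ 2 * C2 * (N : ℝ) ^ η := sum_le_sum e2
    _ = ((R.filter Squarefree).card : ℝ) * (C1 ^ 2 * C2 * (N : ℝ) ^ η) := by
        rw [sum_const, nsmul_eq_mul]
    _ ≤ (R.card : ℝ) * (C1 ^ 2 * C2 * (N : ℝ) ^ η) := by
        apply mul_le_mul_of_nonneg_right _ (by positivity)
        exact_mod_cast card_le_card (filter_subset _ _)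
    _ = _ := by ring

/-- the sum of `w(n) g(N - n)` over `1 ≤ n < y` with `n ≡ a (mod q)` -/
noncomputable def tp (w g : ℕ → ℝ) (q a y N : ℕ) : ℝ :=
  ∑ n ∈ (Ico 1 y).filter (fun n => n ≡ a [MOD q]), w n * g (N - n)

/-- the reflected set -/
def Rf (q a y N : ℕ) : Finset ℕ := (Ico 1 N).filter (fun m => N - m < y ∧ N - m ≡ a [MOD q])

lemma tp_eq (w g : ℕ → ℝ) (q a y N : ℕ) (hy : y ≤ N) :
    tp w g q a y N = ∑ m ∈ Rf q a y N, w (N - m) * g m := by
  unfold tp Rf
  refine Finset.sum_nbij' (fun n => N - n) (fun n => N - n) ?_ ?_ ?_ ?_ ?_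
  · intro n hn
    rw [mem_filter, mem_Ico] at hn ⊢
    rw [Nat.sub_sub_self (by omega)]
    exact ⟨by omega, hn.1.2, hn.2⟩
  · intro n hn
    rw [mem_filter, mem_Ico] at hn ⊢
    exact ⟨by omega, hn.2.2⟩
  · intro n hn
    rw [mem_filter, mem_Ico] at hn
    omega
  · intro n hn
    rw [mem_filter, mem_Ico] at hn
    omega
  · intro n hn
    rw [mem_filter, mem_Ico] at hn
    rw [Nat.sub_sub_self (by omega)]

lemma card_Rf (q a y N : ℕ) (hq : 1 ≤ q) (hqN : q ≤ N) (hy : y ≤ N) : ((Rf q a y N).card : ℝ) ≤ 2 * ((N : ℝ) / q) := by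
  have hq0 : (0 : ℝ) < q := by exact_mod_cast hq
  have h1 : (Rf q a y N).card ≤ ((Ico 1 y).filter (fun n => n ≡ a [MOD q])).card := by
    apply Finset.card_le_card_of_injOn (fun n => N - n)
    · intro n hn
      simp only [Rf, coe_filter, mem_Ico, Set.mem_ofPred_eq] at hn ⊢
      exact ⟨by omega, hn.2.2⟩
    · intro n hn m hm h
      simp only [Rf, coe_filter, mem_Ico, Set.mem_ofPred_eq] at hn hm h
      omega
  have h2 : ((Ico 1 y).filter (fun n => n ≡ a [MOD q])).card ≤ N / q + 1 := by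
    have h3 : (Ico 1 y).filter (fun n => n ≡ a [MOD q]) ⊆ (Ico 0 N).filter (fun n => n ≡ a [MOD q]) := by
      intro n hn
      rw [mem_filter, mem_Ico] at hn ⊢
      exact ⟨by omega, hn.2⟩
    refine (card_le_card h3).trans ?_
    have h4 : ((Ico 0 N).filter (fun n => n ≡ a [MOD q])).card = Nat.count (fun n => n ≡ a [MOD q]) N := by
      rw [Nat.count_eq_card_filter_range, Nat.Ico_zero_eq_range]
    rw [h4, Nat.count_modEq_card _ hq]
    split_ifs <;> omega
  have h3 : ((Rf q a y N).card : ℝ) ≤ ((N / q : ℕ) : ℝ) + 1 := by exact_mod_cast h1.trans h2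
  have h4 : ((N / q : ℕ) : ℝ) ≤ (N : ℝ) / q := Nat.cast_div_le
  have h5 : 1 ≤ (N : ℝ) / q := by
    rw [le_div_iff₀ hq0, one_mul]
    exact_mod_cast hqN
  linarith

/-- independent random signs -/
structure Signs {Ω : Type} [MeasurableSpace Ω] (P : Measure Ω) (s : ℕ → Ω → ℝ) : Prop where
  meas : ∀ p, Measurable (s p)
  sign : ∀ p ω, s p ω = 1 ∨ s p ω = -1
  half : ∀ p, P {ω | s p ω = 1} = 1 / 2
  indep : iIndepFun s P

section prob

variable {Ω : Type} [MeasurableSpace Ω] {P : Measure Ω} [IsProbabilityMeasure P] {s : ℕ → Ω → ℝ}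

lemma Signs.half' (h : Signs P s) (p : ℕ) : P {ω | s p ω = -1} = 1 / 2 := by
  have h1 : {ω | s p ω = -1} = {ω | s p ω = 1}ᶜ := by
    ext ω
    simp only [Set.mem_compl_iff, Set.mem_ofPred_eq]
    rcases h.sign p ω with e | e <;> rw [e] <;> norm_num
  have hm : MeasurableSet {ω | s p ω = 1} := h.meas p (measurableSet_singleton 1)
  rw [h1, measure_compl hm (measure_ne_top _ _), measure_univ, h.half p]
  rw [ENNReal.sub_half ENNReal.one_ne_top]

lemma Signs.cube (h : Signs P s) (I : Finset ℕ) (x : I → Bool) :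
    P {ω | ∀ p : I, s p ω = sg (x p)} = (1 / 2) ^ I.card := by
  classical
  set y : ℕ → ℝ := fun p => if hp : p ∈ I then sg (x ⟨p, hp⟩) else 1 with hy
  have h1 : {ω | ∀ p : I, s p ω = sg (x p)} = ⋂ p ∈ I, s p ⁻¹' {y p} := by
    ext ω
    simp only [Set.mem_ofPred_eq, Set.mem_iInter, Set.mem_preimage, Set.mem_singleton_iff]
    constructor
    · intro h2 p hp
      rw [hy]
      simp only [dif_pos hp]
      exact h2 ⟨p, hp⟩
    · intro h2 p
      have := h2 p p.2
      rw [hy] at this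
      simp only [dif_pos p.2] at this
      exact this
  rw [h1, h.indep.measure_inter_preimage_eq_mul I (fun p _ => measurableSet_singleton _)]
  have h2 : ∀ p ∈ I, P (s p ⁻¹' {y p}) = 1 / 2 := by
    intro p hp
    have h3 : y p = 1 ∨ y p = -1 := by
      rw [hy]
      simp only [dif_pos hp]
      exact sg_cases _
    rcases h3 with h3 | h3
    · rw [h3]
      exact h.half p
    · rw [h3]
      exact h.half' p
  rw [prod_congr rfl h2, prod_const]

lemma Signs.tail (h : Signs P s) (N : ℕ) (c : Finset (PN N) → ℝ) {r : ℕ} (hr : 1 ≤ r) {t W : ℝ} (ht : 0 < t)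
    (hW : ∑ T : Finset (PN N), ((2 * r : ℕ) : ℝ) ^ T.card * c T ^ 2 ≤ W) :
    P {ω | t < |∑ T : Finset (PN N), c T * ∏ p ∈ T, s p ω|} ≤ ENNReal.ofReal ((W / t ^ 2) ^ r) := by
  classical
  have hW' : ∑ T : Finset (PN N), (2 * r : ℝ) ^ T.card * c T ^ 2 ≤ W := by
    refine le_trans (le_of_eq ?_) hW
    push_cast
    rfl
  have h1 := Pool.Agent.TH661.LPX.poly_tail c hr ht hW'
  set A : Finset (PN N → Bool) := univ.filter (fun x => t < |∑ T : Finset (PN N), c T * ∏ p ∈ T, sg (x p)|)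
    with hA
  have h2 : {ω | t < |∑ T : Finset (PN N), c T * ∏ p ∈ T, s p ω|} ⊆
      ⋃ x ∈ A, {ω | ∀ p : PN N, s p ω = sg (x p)} := by
    intro ω hω
    rw [Set.mem_ofPred_eq] at hω
    have h3 : ∀ p : PN N, ∃ b : Bool, s p ω = sg b := by
      intro p
      rcases h.sign p ω with e | e
      · exact ⟨false, by rw [e]; simp [sg]⟩
      · exact ⟨true, by rw [e]; simp [sg]⟩
    choose x hx using h3
    simp only [Set.mem_iUnion, Set.mem_ofPred_eq]
    refine ⟨x, ?_, hx⟩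
    rw [hA, mem_filter]
    refine ⟨mem_univ _, ?_⟩
    refine lt_of_lt_of_eq hω ?_
    congr 1
    apply sum_congr rfl
    intro T _
    congr 1
    exact prod_congr rfl fun p _ => hx p
  have h4 : P {ω | t < |∑ T : Finset (PN N), c T * ∏ p ∈ T, s p ω|} ≤
      ENNReal.ofReal ((A.card : ℝ) / 2 ^ (PN N).card) := by
    calc _ ≤ P (⋃ x ∈ A, {ω | ∀ p : PN N, s p ω = sg (x p)}) := measure_mono h2
      _ ≤ ∑ x ∈ A, P {ω | ∀ p : PN N, s p ω = sg (x p)} := measure_biUnion_finset_le _ _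
      _ = ∑ x ∈ A, (1 / 2) ^ (PN N).card := sum_congr rfl fun x _ => h.cube _ x
      _ = A.card * (1 / 2) ^ (PN N).card := by rw [sum_const, nsmul_eq_mul]
      _ = _ := by
        have e : (1 / 2 : ENNReal) = ENNReal.ofReal (1 / 2) := by
          rw [ENNReal.ofReal_div_of_pos (by norm_num)]; simp
        rw [e, ← ENNReal.ofReal_pow (by norm_num), ← ENNReal.ofReal_natCast, ← ENNReal.ofReal_mul (by positivity)]
        congr 1
        rw [one_div, inv_pow]
        rfl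
  refine h4.trans (ENNReal.ofReal_le_ofReal ?_)
  refine le_trans (le_of_eq ?_) h1
  unfold av ind
  rw [sum_ite, sum_const_zero, add_zero, sum_const, nsmul_eq_mul, mul_one, Fintype.card_fun,
    Fintype.card_bool, Fintype.card_coe]
  push_cast
  rfl

/-- all twisted sums are small, almost surely -/
theorem Signs.all_small (h : Signs P s) (w c : ℕ → ℝ) (hw : Slow w) (hc : Slow c) (δ : ℝ) (hδ : 0 < δ) :
    ∀ᵐ ω ∂P, ∀ᶠ N : ℕ in atTop, ∀ q ∈ Icc 1 N, ∀ a ∈ range N, ∀ y ∈ range (N + 1),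
      |tp w (fun m => c m * rmu (fun p => s p ω) m) q a y N| ≤ √((N : ℝ) / q) * (N : ℝ) ^ δ := by
  classical
  obtain ⟨r, hr⟩ := exists_nat_ge (max 1 (5 / δ))
  have hr1 : 1 ≤ r := by exact_mod_cast (le_max_left _ _).trans hr
  have hr2 : 5 ≤ δ * r := by
    have := (le_max_right _ _).trans hr
    rw [div_le_iff₀ hδ] at this
    linarith
  obtain ⟨C, hC, hsum⟩ := cf_sq w c hw hc r δ hδ
  set Ev : ℕ → ℕ → ℕ → ℕ → Set Ω := fun N q a y => {ω | √((N : ℝ) / q) * (N : ℝ) ^ δ <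
    |tp w (fun m => c m * rmu (fun p => s p ω) m) q a y N|} with hEv
  set Bad : ℕ → Set Ω := fun N => ⋃ q ∈ Icc 1 N, ⋃ a ∈ range N, ⋃ y ∈ range (N + 1), Ev N q a y with hBad
  have hP : ∀ N : ℕ, 1 ≤ N → P (Bad N) ≤ ENNReal.ofReal (2 * ((2 * C) ^ r * (1 / (N : ℝ) ^ 2))) := by
    intro N hN
    have hN1 : (1 : ℝ) ≤ N := by exact_mod_cast hN
    have hN0 : (0 : ℝ) < N := by linarith
    have h1 : ∀ q ∈ Icc 1 N, ∀ a : ℕ, ∀ y ∈ range (N + 1), P (Ev N q a y) ≤
        ENNReal.ofReal ((2 * C) ^ r * (1 / (N : ℝ) ^ 5)) := by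
      intro q hq a y hy
      have hq1 := (mem_Icc.1 hq).1
      have hq0 : (0 : ℝ) < q := by exact_mod_cast hq1
      have hyN : y ≤ N := by rw [mem_range] at hy; omega
      have ht : 0 < √((N : ℝ) / q) * (N : ℝ) ^ δ := by
        apply mul_pos (Real.sqrt_pos.2 (by positivity)) (Real.rpow_pos_of_pos hN0 _)
      have hRsub : Rf q a y N ⊆ Ico 1 N := filter_subset _ _
      have hW : ∑ T : Finset (PN N), ((2 * r : ℕ) : ℝ) ^ T.card * cf w c N (Rf q a y N) T ^ 2 ≤
          2 * C * (N : ℝ) ^ δ * ((N : ℝ) / q) := by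
        refine (hsum N (Rf q a y N) hRsub).trans ?_
        have := mul_le_mul_of_nonneg_left (card_Rf q a y N hq1 (mem_Icc.1 hq).2 hyN)
          (show 0 ≤ C * (N : ℝ) ^ δ by positivity)
        linarith
      have h2 := h.tail N (cf w c N (Rf q a y N)) hr1 ht hW
      rw [hEv]
      simp only [tp_eq w _ q a y N hyN, tw_chaos w c _ N _ hRsub]
      refine h2.trans (ENNReal.ofReal_le_ofReal ?_)
      have e1 : (√((N : ℝ) / q) * (N : ℝ) ^ δ) ^ 2 = (N : ℝ) / q * (N : ℝ) ^ (2 * δ) := by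
        rw [mul_pow, Real.sq_sqrt (by positivity), ← Real.rpow_natCast ((N : ℝ) ^ δ), ← Real.rpow_mul hN0.le]
        congr 2
        push_cast
        ring
      have e2 : 2 * C * (N : ℝ) ^ δ * ((N : ℝ) / q) / ((N : ℝ) / q * (N : ℝ) ^ (2 * δ)) = 2 * C * (N : ℝ) ^ (-δ) := by
        have e3 : (N : ℝ) ^ (2 * δ) = (N : ℝ) ^ δ * (N : ℝ) ^ δ := by
          rw [← Real.rpow_add hN0]; congr 1; ring
        have e4 : 0 < (N : ℝ) ^ δ := Real.rpow_pos_of_pos hN0 _
        rw [e3, Real.rpow_neg hN0.le]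
        field_simp
      rw [e1, e2, mul_pow]
      apply mul_le_mul_of_nonneg_left _ (by positivity)
      rw [← Real.rpow_natCast ((N : ℝ) ^ (-δ)), ← Real.rpow_mul hN0.le, one_div, ← Real.rpow_natCast (N : ℝ) 5,
        ← Real.rpow_neg hN0.le]
      apply Real.rpow_le_rpow_of_exponent_le hN1
      push_cast
      linarith
    calc P (Bad N) ≤ ∑ q ∈ Icc 1 N, P (⋃ a ∈ range N, ⋃ y ∈ range (N + 1), Ev N q a y) :=
          measure_biUnion_finset_le _ _
      _ ≤ ∑ q ∈ Icc 1 N, ∑ a ∈ range N, P (⋃ y ∈ range (N + 1), Ev N q a y) :=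
          sum_le_sum fun q _ => measure_biUnion_finset_le _ _
      _ ≤ ∑ q ∈ Icc 1 N, ∑ a ∈ range N, ∑ y ∈ range (N + 1), P (Ev N q a y) :=
          sum_le_sum fun q _ => sum_le_sum fun a _ => measure_biUnion_finset_le _ _
      _ ≤ ∑ q ∈ Icc 1 N, ∑ a ∈ range N, ∑ y ∈ range (N + 1), ENNReal.ofReal ((2 * C) ^ r * (1 / (N : ℝ) ^ 5)) :=
          sum_le_sum fun q hq => sum_le_sum fun a _ => sum_le_sum fun y hy => h1 q hq a y hy
      _ = (N * (N * (N + 1 : ℕ)) : ℕ) * ENNReal.ofReal ((2 * C) ^ r * (1 / (N : ℝ) ^ 5)) := by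
          rw [sum_const, sum_const, sum_const, nsmul_eq_mul, nsmul_eq_mul, nsmul_eq_mul, Nat.card_Icc,
            Nat.add_sub_cancel, card_range, card_range]
          push_cast
          ring
      _ = ENNReal.ofReal ((N * (N * (N + 1 : ℕ)) : ℕ) * ((2 * C) ^ r * (1 / (N : ℝ) ^ 5))) := by
          rw [← ENNReal.ofReal_natCast, ← ENNReal.ofReal_mul (by positivity)]
      _ ≤ ENNReal.ofReal (2 * ((2 * C) ^ r * (1 / (N : ℝ) ^ 2))) := by
          apply ENNReal.ofReal_le_ofReal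
          have e1 : ((N * (N * (N + 1 : ℕ)) : ℕ) : ℝ) ≤ 2 * (N : ℝ) ^ 3 := by
            push_cast
            nlinarith [sq_nonneg (N : ℝ), mul_nonneg (sq_nonneg (N : ℝ)) (show (0 : ℝ) ≤ N - 1 by linarith)]
          calc ((N * (N * (N + 1 : ℕ)) : ℕ) : ℝ) * ((2 * C) ^ r * (1 / (N : ℝ) ^ 5)) ≤
              2 * (N : ℝ) ^ 3 * ((2 * C) ^ r * (1 / (N : ℝ) ^ 5)) :=
                mul_le_mul_of_nonneg_right e1 (by positivity)
            _ = 2 * ((2 * C) ^ r * (1 / (N : ℝ) ^ 2)) := by field_simp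
  have hsumm : ∑' N : ℕ, P (Bad (N + 1)) ≠ ⊤ := by
    have h1 : Summable fun N : ℕ => 2 * ((2 * C) ^ r * (1 / ((N + 1 : ℕ) : ℝ) ^ 2)) := by
      apply Summable.mul_left
      apply Summable.mul_left
      exact (summable_nat_add_iff 1).2 (Real.summable_one_div_nat_pow.2 (by norm_num))
    refine ne_top_of_le_ne_top h1.tsum_ofReal_ne_top (ENNReal.tsum_le_tsum fun N => ?_)
    exact hP (N + 1) (by omega)
  have h2 := ae_eventually_notMem hsumm
  filter_upwards [h2] with ω hω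
  obtain ⟨N0, hN0⟩ := eventually_atTop.1 hω
  filter_upwards [eventually_ge_atTop (N0 + 1)] with N hN q hq a ha y hy
  have h3 := hN0 (N - 1) (by omega)
  rw [show N - 1 + 1 = N by omega] at h3
  by_contra hcon
  apply h3
  rw [hBad]
  simp only [Set.mem_iUnion]
  exact ⟨q, hq, a, ha, y, hy, not_le.1 hcon⟩

end prob

end Pool.Agent.V7H39.DE
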